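import Pool.Agent.Q126.FD.Full
import Pool.Agent.TH943.PT.Orb
import Pool.Agent.Q126.TD.Comp

/-!
Almost all polynomials `f` over `𝔽[u]`: the composition `f(g)` with a given cubic polynomial `g` over
`𝔽[u]` is irreducible over fields with many places over `𝔽(u)`.
-/

set_option autoImplicit false
set_option linter.all false

open Polynomial Filter Topology

namespace Pool.Agent.Q126.FD

open Pool.Agent.Q126.TD (pol pol_coeff pol_injective natDegree_pol_le coeff_pol map_pol ncard_pol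
  not_root_of_irr irreducible_of_map notNorm_of_factor not_dvd_of_comp)

section count

variable {E : Type} [Field E] [Finite E]

theorem finite_le (n : ℕ) : {f : E[X] | f.natDegree ≤ n}.Finite := by
  apply (Set.finite_range (pol : (Fin (n + 1) → E) → E[X])).subset
  intro f hf
  exact ⟨fun i => f.coeff i, pol_coeff hf⟩

/-- The irreducible polynomials `g` of degree `N` such that `g(f)` is irreducible. -/
theorem count_comp (h2 : (2 : E) ≠ 0) (h3 : (3 : E) ≠ 0) (hE : 11 ≤ Nat.card E) {f : E[X]}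
    (hf : f.Monic) (hf3 : f.natDegree = 3) (hab : f.coeff 2 ^ 2 ≠ 3 * f.coeff 1) {N : ℕ}
    (hN : 0 < N) : 1 / (24 * N : ℝ) * (Nat.card E : ℝ) ^ (N + 1) ≤
      ({g : E[X] | g.natDegree = N ∧ Irreducible g ∧ Irreducible (g.comp f)}.ncard : ℝ) := by
  classical
  have h4 := Pool.Agent.TH943.PT.inert_count h2 h3 hf hf3 hab hN
  set A := {P : {P : E[X] // P.Monic ∧ Irreducible P} | P.1.natDegree = N ∧
        Irreducible (P.1.comp f)} with hA
  set p : ℕ := Nat.card E with hp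
  have hpR : (11 : ℝ) ≤ p := by exact_mod_cast hE
  have hNR : (1 : ℝ) ≤ N := by exact_mod_cast hN
  -- the sum over the divisors
  have h5 : ((∑ d ∈ N.properDivisors, (p : ℤ) ^ d : ℤ) : ℝ) * 10 ≤ (p : ℝ) ^ N - 1 := by
    have h6 : (∑ d ∈ N.properDivisors, (p : ℝ) ^ d) ≤ ∑ d ∈ Finset.range N, (p : ℝ) ^ d := by
      apply Finset.sum_le_sum_of_subset_of_nonneg
      · intro d hd
        rw [Finset.mem_range]
        exact (Nat.mem_properDivisors.1 hd).2
      · intro d _ _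
        positivity
    have h7 := geom_sum_mul (p : ℝ) N
    have h8 : (0 : ℝ) ≤ ∑ d ∈ Finset.range N, (p : ℝ) ^ d :=
      Finset.sum_nonneg fun d _ => by positivity
    push_cast
    nlinarith
  have h6 : (p : ℝ) ^ N - 3 * (N * A.ncard) ≤
      3 * ((∑ d ∈ N.properDivisors, (p : ℤ) ^ d : ℤ) : ℝ) + 1 := by
    have h7 := (abs_le.1 h4).1
    have h8 : -(3 * (((∑ d ∈ N.properDivisors, (p : ℤ) ^ d : ℤ) : ℤ) : ℝ) + 1) ≤
        3 * (N * A.ncard) - (p : ℝ) ^ N := by exact_mod_cast h7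
    linarith
  have hpN : (p : ℝ) ≤ (p : ℝ) ^ N := by
    calc (p : ℝ) = (p : ℝ) ^ 1 := (pow_one _).symm
      _ ≤ (p : ℝ) ^ N := pow_le_pow_right₀ (by linarith) hN
  have h7 : (p : ℝ) ^ N ≤ 12 * (N * A.ncard) := by nlinarith
  -- all leading coefficients
  set B := {g : E[X] | g.natDegree = N ∧ Irreducible g ∧ Irreducible (g.comp f)} with hB
  have hBf : B.Finite := (finite_le N).subset fun g hg => hg.1.le
  have h8 : (p - 1) * A.ncard ≤ B.ncard := by
    have h9 : (Set.univ ×ˢ A : Set (Eˣ × _)).ncard = (p - 1) * A.ncard := by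
      rw [Set.ncard_prod, Set.ncard_univ, Nat.card_units]
    rw [← h9]
    refine Set.ncard_le_ncard_of_injOn (fun x => C (x.1 : E) * x.2.1) ?_ ?_ hBf
    · rintro ⟨a, P⟩ ⟨-, hP1, hP2⟩
      have ha : (a : E) ≠ 0 := a.ne_zero
      have hu : IsUnit (C (a : E) : E[X]) := isUnit_C.2 a.isUnit
      refine ⟨?_, ?_, ?_⟩
      · show (C (a : E) * P.1).natDegree = N
        rw [natDegree_C_mul ha, hP1]
      · exact (irreducible_isUnit_mul hu).2 P.2.2
      · show Irreducible ((C (a : E) * P.1).comp f)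
        rw [mul_comp, C_comp]
        exact (irreducible_isUnit_mul hu).2 hP2
    · rintro ⟨a, P⟩ - ⟨b, Q⟩ - h
      have h1 : C (a : E) * P.1 = C (b : E) * Q.1 := h
      have h10 := congrArg leadingCoeff h1
      rw [leadingCoeff_mul, leadingCoeff_mul, leadingCoeff_C, leadingCoeff_C,
        P.2.1.leadingCoeff, Q.2.1.leadingCoeff, mul_one, mul_one] at h10
      have h11 : a = b := Units.ext h10
      subst h11
      have h12 : P.1 = Q.1 := mul_left_cancel₀ (C_ne_zero.2 a.ne_zero) h1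
      rw [Subtype.ext h12]
  have h9 : ((p : ℝ) - 1) * A.ncard ≤ B.ncard := by
    have h10 : ((p - 1 : ℕ) : ℝ) * A.ncard ≤ B.ncard := by exact_mod_cast h8
    rwa [Nat.cast_sub (by omega), Nat.cast_one] at h10
  have h10 : (0 : ℝ) ≤ A.ncard := Nat.cast_nonneg _
  have h11 : (p : ℝ) ^ N * (p : ℝ) ≤ 24 * N * (((p : ℝ) - 1) * A.ncard) := by
    have h12 : (p : ℝ) ^ N * p ≤ 12 * (N * A.ncard) * p :=
      mul_le_mul_of_nonneg_right h7 (by linarith)
    have h13 : (p : ℝ) ≤ 2 * (p - 1) := by linarith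
    have h14 : 12 * (N * (A.ncard : ℝ)) * p ≤ 12 * (N * A.ncard) * (2 * (p - 1)) :=
      mul_le_mul_of_nonneg_left h13 (by positivity)
    linarith
  rw [pow_succ, div_mul_eq_mul_div, one_mul, div_le_iff₀ (by positivity)]
  nlinarith

/-- Vectors of coefficients of irreducible polynomials. -/
theorem count_comp_vec (h2 : (2 : E) ≠ 0) (h3 : (3 : E) ≠ 0) (hE : 11 ≤ Nat.card E) {f : E[X]}
    (hf : f.Monic) (hf3 : f.natDegree = 3) (hab : f.coeff 2 ^ 2 ≠ 3 * f.coeff 1) {N : ℕ}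
    (hN : 0 < N) : 1 / (24 * N : ℝ) * (Nat.card E : ℝ) ^ (N + 1) ≤
      ({v : Fin (N + 1) → E | (pol v).natDegree = N ∧ Irreducible (pol v) ∧
        Irreducible ((pol v).comp f)}.ncard : ℝ) := by
  refine (count_comp h2 h3 hE hf hf3 hab hN).trans (le_of_eq ?_)
  rw [ncard_pol (n := N) fun g : E[X] => g.natDegree = N ∧ Irreducible g ∧
    Irreducible (g.comp f)]
  congr 2
  ext g
  constructor
  · rintro ⟨h1, h2⟩
    exact ⟨h1.le, h1, h2⟩
  · rintro ⟨-, h1, h2⟩
    exact ⟨h1, h2⟩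

end count

section full

variable {𝔽 : Type} [Field 𝔽] [Finite 𝔽] {κ : Type} [Fintype κ]

/-- **Sets which contain a positive proportion of the residues at infinitely many places**, where
the divisors of an element `e` may be excluded. -/
theorem full_of_places_off {k : Type} [Field k] [Algebra 𝔽[X] k] (hk : Rich 𝔽 k) (M : ℕ)
    {e : 𝔽[X]} (he : e ≠ 0) {δ : ℝ} (hδ0 : 0 < δ) (S : Set (κ → 𝔽[X]))
    (T : ∀ (E : Type) [Field E], (𝔽[X] →+* E) → Set (κ → E))
    (hT : ∀ (E : Type) [Field E] [Finite E] (ρ : 𝔽[X] →+* E), (ringChar E = ringChar 𝔽) →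
      ρ e ≠ 0 → M ≤ Nat.card E → δ * (Nat.card E : ℝ) ^ Fintype.card κ ≤ (T E ρ).ncard)
    (hS : ∀ (E O L : Type) [Field E] [Finite E] [CommRing O] [IsDomain O] [IsIntegrallyClosed O]
      [Field L] [Algebra O L] [IsFractionRing O L] (ρ : 𝔽[X] →+* E) (ρ' : O →+* E)
      (ι : 𝔽[X] →+* O) (φ : k →+* L), ρ e ≠ 0 → Hens ρ' → (∀ f, ρ' (ι f) = ρ f) →
      (∀ f, φ (algebraMap 𝔽[X] k f) = algebraMap O L (ι f)) → ∀ v : κ → 𝔽[X],
        (fun i => ρ (v i)) ∈ T E ρ → v ∈ S) : Full S := by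
  classical
  let G : ∀ π : 𝔽[X], Set (κ → 𝔽[X] ⧸ Ideal.span {π}) := fun π =>
    if h : (Ideal.span {π} : Ideal 𝔽[X]).IsMaximal then
      letI : Field (𝔽[X] ⧸ Ideal.span {π}) := Ideal.Quotient.field _
      T (𝔽[X] ⧸ Ideal.span {π}) (Ideal.Quotient.mk _)
    else ∅
  set M' := max M (e.natDegree + 1) with hM'
  have hoff : ∀ π : 𝔽[X], M' ≤ π.natDegree → (Ideal.Quotient.mk (Ideal.span {π})) e ≠ 0 := by
    intro π hd h
    rw [Ideal.Quotient.eq_zero_iff_mem, Ideal.mem_span_singleton] at h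
    have h1 := natDegree_le_of_dvd h he
    have h2 : e.natDegree + 1 ≤ M' := le_max_right _ _
    omega
  have hG : ∀ π : 𝔽[X], π.Monic → Irreducible π → M' ≤ π.natDegree →
      δ * Nat.card (κ → 𝔽[X] ⧸ Ideal.span {π}) ≤ (G π).ncard := by
    intro π hm hi hd
    have hmax : (Ideal.span {π} : Ideal 𝔽[X]).IsMaximal :=
      PrincipalIdealRing.isMaximal_of_irreducible hi
    letI : Field (𝔽[X] ⧸ Ideal.span {π}) := Ideal.Quotient.field _
    haveI : Finite (𝔽[X] ⧸ Ideal.span {π}) := finite_res hm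
    have h1 : ringChar (𝔽[X] ⧸ Ideal.span {π}) = ringChar 𝔽 := by
      haveI : CharP 𝔽 (ringChar 𝔽) := ringChar.charP 𝔽
      haveI : CharP (𝔽[X] ⧸ Ideal.span {π}) (ringChar 𝔽) :=
        charP_of_injective_ringHom (f := ((Ideal.Quotient.mk (Ideal.span {π})).comp C))
          (RingHom.injective _) _
      exact ringChar.eq_iff.2 inferInstance
    have h2 := hT (𝔽[X] ⧸ Ideal.span {π}) (Ideal.Quotient.mk _) h1 (hoff π hd)
      (((le_max_left _ _).trans hd).trans (card_res hm))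
    have h3 : G π = T (𝔽[X] ⧸ Ideal.span {π}) (Ideal.Quotient.mk _) := dif_pos hmax
    rw [h3, Nat.card_fun, Nat.card_eq_fintype_card (α := κ)]
    push_cast
    exact h2
  have hδ : δ ≤ 1 := by
    obtain ⟨π, hm, hi, hd, -⟩ := (hk M').nonempty
    haveI : Finite (𝔽[X] ⧸ Ideal.span {π}) := finite_res hm
    have h1 := hG π hm hi hd
    have h2 : ((G π).ncard : ℝ) ≤ Nat.card (κ → 𝔽[X] ⧸ Ideal.span {π}) := by
      exact_mod_cast Set.ncard_le_card _
    have h3 : (0 : ℝ) < Nat.card (κ → 𝔽[X] ⧸ Ideal.span {π}) := by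
      haveI : Nonempty (κ → 𝔽[X] ⧸ Ideal.span {π}) := ⟨fun _ => 0⟩
      exact_mod_cast Nat.card_pos
    by_contra h4
    push Not at h4
    have := mul_lt_mul_of_pos_right h4 h3
    linarith
  refine density (hk M') (fun π h => ⟨h.1, h.2.1⟩) hδ0 hδ (G := G)
    (fun π h => hG π h.1 h.2.1 h.2.2.1) ?_
  rintro v π ⟨hm, hi, hd, hpl⟩ hv
  have hmax : (Ideal.span {π} : Ideal 𝔽[X]).IsMaximal :=
    PrincipalIdealRing.isMaximal_of_irreducible hi
  letI : Field (𝔽[X] ⧸ Ideal.span {π}) := Ideal.Quotient.field _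
  haveI : Finite (𝔽[X] ⧸ Ideal.span {π}) := finite_res hm
  obtain ⟨O, L, i1, i2, i3, i4, i5, i6, ρ', ι, φ, h1, h2, h3⟩ :=
    hpl (𝔽[X] ⧸ Ideal.span {π}) (Ideal.Quotient.mk _) Ideal.Quotient.mk_surjective
      Ideal.mk_ker
  have h4 : G π = T (𝔽[X] ⧸ Ideal.span {π}) (Ideal.Quotient.mk _) := dif_pos hmax
  rw [h4] at hv
  exact hS (𝔽[X] ⧸ Ideal.span {π}) O L (Ideal.Quotient.mk _) ρ' ι φ (hoff π hd) h1 h2 h3 v hv

variable {k : Type} [Field k] [Algebra 𝔽[X] k]

theorem ne_of_char {n : ℕ} (hn : (n : 𝔽) ≠ 0) {E : Type} [Field E]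
    (hE : ringChar E = ringChar 𝔽) : (n : E) ≠ 0 := by
  haveI : CharP 𝔽 (ringChar 𝔽) := ringChar.charP 𝔽
  haveI : CharP E (ringChar 𝔽) := hE ▸ ringChar.charP E
  intro h
  apply hn
  rw [CharP.cast_eq_zero_iff E (ringChar 𝔽)] at h
  rwa [CharP.cast_eq_zero_iff 𝔽 (ringChar 𝔽)]

/-- **Almost all compositions with a cubic polynomial are irreducible.** -/
theorem comp_full (hk : Rich 𝔽 k) (h2 : (2 : 𝔽) ≠ 0) (h3 : (3 : 𝔽) ≠ 0) {N : ℕ} (hN : 0 < N)
    {Q : (κ → 𝔽[X]) → 𝔽[X][X]} (hQ : Equidistributed 𝔽 N Q) {g : 𝔽[X][X]} (hg : g.Monic)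
    (hg3 : g.natDegree = 3) (hab : g.coeff 2 ^ 2 ≠ 3 * g.coeff 1) :
    Full {v | Irreducible (((Q v).map (algebraMap 𝔽[X] k)).comp (g.map (algebraMap 𝔽[X] k))) ∧
      ((Q v).map (algebraMap 𝔽[X] k)).natDegree = N} := by
  obtain ⟨hQ1, q, hq⟩ := hQ
  refine full_of_places_off hk 11 (e := g.coeff 2 ^ 2 - 3 * g.coeff 1) (sub_ne_zero.2 hab)
    (δ := 1 / (24 * N : ℝ)) (by positivity) _
    (fun E _ ρ => {w | q E ρ w ∈ {v : Fin (N + 1) → E | (pol v).natDegree = N ∧
      Irreducible (pol v) ∧ Irreducible ((pol v).comp (g.map ρ))}})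
    (fun E _ _ ρ hE he hc => (hq E ρ hE).1.count (count_comp_vec
      (by exact_mod_cast ne_of_char (n := 2) (by exact_mod_cast h2) hE)
      (by exact_mod_cast ne_of_char (n := 3) (by exact_mod_cast h3) hE) hc (hg.map _)
      (by rw [hg.natDegree_map, hg3]) ?_ hN)) ?_
  · rw [coeff_map, coeff_map]
    intro h
    apply he
    rw [map_sub, map_mul, map_pow, map_ofNat]
    exact sub_eq_zero.2 h
  intro E O L _ _ _ _ _ _ _ _ ρ ρ' ι φ he hH hρ hφ v hv
  obtain ⟨h1, -, h4⟩ := hv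
  rw [← (hq E ρ (ringChar_ρ ρ)).2] at h1 h4
  have h5 := degree_of_red hρ (hQ1 v) h1
  have hgE : (g.map ρ).natDegree = 3 := by rw [hg.natDegree_map, hg3]
  have hgO : (g.map ι).natDegree = 3 := by rw [hg.natDegree_map, hg3]
  have hred : (((Q v).map ι).comp (g.map ι)).map ρ' = ((Q v).map ρ).comp (g.map ρ) := by
    rw [Polynomial.map_comp, map_res hρ, map_res hρ]
  have h6 := hH.irr_of_red (L := L) (f := ((Q v).map ι).comp (g.map ι)) (by
      rw [hred, natDegree_comp, natDegree_comp, h1, h5, hgE, hgO])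
    (by rw [hred]; exact h4)
  rw [Polynomial.map_comp, map_emb hφ, map_emb hφ, ← Polynomial.map_comp] at h6
  refine ⟨irreducible_of_map φ h6, ?_⟩
  rw [← natDegree_map φ, ← map_emb hφ,
    natDegree_map_eq_of_injective (IsFractionRing.injective O L), h5]

end full

section neg

variable {𝔽 : Type} [Field 𝔽] [Finite 𝔽] {n : ℕ}

/-- The vectors of the coefficients of `D(-t)`. -/
theorem equi_neg : Equidistributed 𝔽 n (fun v : Fin (n + 1) → 𝔽[X] => (pol v).comp (-X)) := by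
  refine ⟨fun v => ?_, fun E _ ρ w i => (-1) ^ (i : ℕ) * w i, fun E _ ρ hE => ⟨?_, fun v => ?_⟩⟩
  · refine natDegree_comp_le.trans ?_
    rw [natDegree_neg, natDegree_X, mul_one]
    exact natDegree_pol_le v
  · let e : (Fin (n + 1) → E) ≃ Unit × (Fin (n + 1) → E) :=
      { toFun := fun w => ((), fun i => (-1) ^ (i : ℕ) * w i)
        invFun := fun x => fun i => (-1) ^ (i : ℕ) * x.2 i
        left_inv := fun w => by
          funext i
          show (-1) ^ (i : ℕ) * ((-1) ^ (i : ℕ) * w i) = w i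
          rw [← mul_assoc, ← mul_pow]
          simp
        right_inv := fun x => by
          refine Prod.ext rfl ?_
          funext i
          show (-1) ^ (i : ℕ) * ((-1) ^ (i : ℕ) * x.2 i) = x.2 i
          rw [← mul_assoc, ← mul_pow]
          simp }
    exact ⟨Unit, e, fun w => rfl⟩
  · rw [Polynomial.map_comp, map_pol]
    rw [Polynomial.map_neg, map_X]
    unfold pol
    refine (map_sum (compRingHom (-X)) _ _).trans ?_
    refine Finset.sum_congr rfl fun i _ => ?_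
    show (C (ρ (v i)) * X ^ (i : ℕ)).comp (-X) = _
    rw [mul_comp, C_comp, pow_comp, X_comp, neg_pow, C_mul, C_pow, C_neg, C_1]
    ring

end neg

end Pool.Agent.Q126.FD
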