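import Mathlib

/-!
Irreducible polynomials over extensions in which the algebraic closure of the base field is finite of
degree prime to the degree of the polynomial.
-/

set_option autoImplicit false
set_option linter.all false

open Polynomial Module

namespace Pool.Agent.Q126.FD

variable {k : Type} [Field k]

theorem irr_coprime {L : Type} [Field L] [Algebra k L] [FiniteDimensional k L] {f : k[X]}
    (hf : Irreducible f) (h : (finrank k L).Coprime f.natDegree) :
    Irreducible (f.map (algebraMap k L)) := by
  have h0 : f.map (algebraMap k L) ≠ 0 := (Polynomial.map_ne_zero_iff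
    (algebraMap k L).injective).2 hf.ne_zero
  have hu : ¬ IsUnit (f.map (algebraMap k L)) := by
    intro hu
    have h1 := natDegree_eq_zero_of_isUnit hu
    rw [natDegree_map] at h1
    exact hf.natDegree_pos.ne' h1
  obtain ⟨g, hg, hgf⟩ := WfDvdMonoid.exists_irreducible_factor hu h0
  haveI : Fact (Irreducible g) := ⟨hg⟩
  haveI : FiniteDimensional L (AdjoinRoot g) := (AdjoinRoot.powerBasis hg.ne_zero).finite
  haveI : FiniteDimensional k (AdjoinRoot g) := FiniteDimensional.trans k L (AdjoinRoot g)
  have hfin : finrank L (AdjoinRoot g) = g.natDegree := by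
    rw [(AdjoinRoot.powerBasis hg.ne_zero).finrank, AdjoinRoot.powerBasis_dim hg.ne_zero]
  have h1 : aeval (AdjoinRoot.root g) f = 0 := by
    have h2 : aeval (AdjoinRoot.root g) (f.map (algebraMap k L)) = 0 := by
      rw [AdjoinRoot.aeval_eq]
      exact AdjoinRoot.mk_eq_zero.2 hgf
    rwa [aeval_map_algebraMap] at h2
  have h2 : f.natDegree ∣ finrank k (AdjoinRoot g) := by
    have h3 := minpoly.eq_of_irreducible hf h1
    have h4 : (minpoly k (AdjoinRoot.root g)).natDegree = f.natDegree := by
      rw [← h3, natDegree_mul_C]
      exact inv_ne_zero (leadingCoeff_ne_zero.2 hf.ne_zero)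
    rw [← h4]
    exact minpoly.degree_dvd (Algebra.IsIntegral.isIntegral _)
  rw [← finrank_mul_finrank k L (AdjoinRoot g), hfin] at h2
  have h3 : f.natDegree ∣ g.natDegree := h.symm.dvd_of_dvd_mul_left h2
  have h4 : f.natDegree ≤ g.natDegree := Nat.le_of_dvd hg.natDegree_pos h3
  have h5 : Associated g (f.map (algebraMap k L)) := by
    refine associated_of_dvd_of_natDegree_le hgf h0 ?_
    rw [natDegree_map]
    exact h4
  exact h5.irreducible hg

theorem irr_ext {L : Type} [Field L] [Algebra k L] [FiniteDimensional k (algebraicClosure k L)]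
    {f : k[X]} (hf : Irreducible f)
    (h : (finrank k (algebraicClosure k L)).Coprime f.natDegree) :
    Irreducible (f.map (algebraMap k L)) := by
  -- a monic multiple
  have hlc : f.leadingCoeff ≠ 0 := leadingCoeff_ne_zero.2 hf.ne_zero
  have hu : IsUnit (C (f.leadingCoeff⁻¹) : k[X]) := isUnit_C.2 (isUnit_iff_ne_zero.2
    (inv_ne_zero hlc))
  set F := f * C (f.leadingCoeff⁻¹) with hF
  have hFm : F.Monic := monic_mul_leadingCoeff_inv hf.ne_zero
  have hFi : Irreducible F := (irreducible_mul_isUnit hu).2 hf
  have hFd : F.natDegree = f.natDegree := natDegree_mul_C (inv_ne_zero hlc)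
  set A := algebraicClosure k L with hA
  have h1 : Irreducible (F.map (algebraMap k A)) := irr_coprime hFi (by rw [hFd]; exact h)
  have h2 : Irreducible (F.map (algebraMap k L)) := by
    have hFL : (F.map (algebraMap k L)).Monic := hFm.map _
    have hd1 : 0 < F.natDegree := hFi.natDegree_pos
    rw [hFL.irreducible_iff_natDegree' ]
    refine ⟨fun h => ?_, ?_⟩
    · have h3 := congrArg natDegree h
      rw [natDegree_map, natDegree_one] at h3
      omega
    rintro a b ha hb hab hmem
    have key : ∀ g : L[X], g.Monic → g ∣ F.map (algebraMap k L) →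
        ∃ G : A[X], G.map (algebraMap A L) = g := by
      intro g hg hgd
      obtain ⟨G, hG⟩ := integralClosure.mem_lifts_of_monic_of_dvd_map L hFm hg hgd
      let j : integralClosure k L →+* A :=
        { toFun := fun x => ⟨x.1, x.2⟩
          map_one' := rfl
          map_mul' := fun x y => rfl
          map_zero' := rfl
          map_add' := fun x y => rfl }
      refine ⟨G.map j, ?_⟩
      rw [Polynomial.map_map]
      exact hG
    obtain ⟨a', ha'⟩ := key a ha (hab ▸ dvd_mul_right a b)
    obtain ⟨b', hb'⟩ := key b hb (hab ▸ dvd_mul_left b a)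
    have h3 : a' * b' = F.map (algebraMap k A) := by
      apply map_injective _ (algebraMap A L).injective
      rw [Polynomial.map_mul, ha', hb', hab, Polynomial.map_map, ← IsScalarTower.algebraMap_eq]
    have ea : a'.natDegree = a.natDegree := by rw [← ha', natDegree_map]
    have eb : b'.natDegree = b.natDegree := by rw [← hb', natDegree_map]
    have e3 : b.natDegree + a.natDegree = F.natDegree := by
      have := congrArg natDegree hab
      rw [natDegree_mul ha.ne_zero hb.ne_zero, natDegree_map] at this
      omega
    rw [Finset.mem_Ioc, natDegree_map] at hmem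
    rcases h1.isUnit_or_isUnit h3.symm with h4 | h4
    · have h5 := natDegree_eq_zero_of_isUnit h4
      omega
    · have h5 := natDegree_eq_zero_of_isUnit h4
      omega
  rw [hF, Polynomial.map_mul, map_C] at h2
  exact (irreducible_mul_isUnit (isUnit_C.2 (isUnit_iff_ne_zero.2
    ((_root_.map_ne_zero _).2 (inv_ne_zero hlc))))).1 h2

end Pool.Agent.Q126.FD
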