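import Pool.Agent.Q126.TD.Pol
import Pool.Agent.Q126.TD.Irr
import Pool.Agent.Y160.T3.IrrCount

/-!
Counting polynomials over finite fields.
-/

set_option autoImplicit false
set_option linter.all false

open Polynomial

namespace Pool.Agent.Q126.FD

open Pool.Agent.Q126.TD (pol pol_coeff pol_injective natDegree_pol_le coeff_pol not_root_of_irr)
open Pool.Agent.Y160.T3 (mF GoodP irr_count)

section

variable {E : Type} [Field E] [Finite E]

/-- the vectors of the coefficients of the irreducible polynomials of degree `N` -/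
def IrrV (E : Type) [Field E] (N : ℕ) : Set (Fin (N + 1) → E) :=
  {v | (pol v).natDegree = N ∧ Irreducible (pol v)}

theorem mF_monic {N : ℕ} (a : Fin N → E) : (mF a).Monic := by
  unfold mF
  apply monic_X_pow_add
  refine (degree_sum_le _ _).trans_lt ?_
  rw [Finset.sup_lt_iff (by exact WithBot.bot_lt_coe N)]
  intro i _
  refine (degree_C_mul_X_pow_le _ _).trans_lt ?_
  exact_mod_cast i.2

theorem mF_natDegree {N : ℕ} (a : Fin N → E) : (mF a).natDegree = N := by
  unfold mF
  have h : (∑ i : Fin N, C (a i) * X ^ (i : ℕ)).degree < (N : WithBot ℕ) := by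
    refine (degree_sum_le _ _).trans_lt ?_
    rw [Finset.sup_lt_iff (by exact WithBot.bot_lt_coe N)]
    intro i _
    refine (degree_C_mul_X_pow_le _ _).trans_lt ?_
    exact_mod_cast i.2
  apply natDegree_eq_of_degree_eq_some
  rw [degree_add_eq_left_of_degree_lt, degree_X_pow]
  rwa [degree_X_pow]

theorem mF_coeff {N : ℕ} (a : Fin N → E) (i : Fin N) : (mF a).coeff i = a i := by
  unfold mF
  rw [coeff_add, coeff_X_pow, if_neg (by have := i.2; omega), zero_add, finset_sum_coeff,
    Finset.sum_eq_single i]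
  · simp
  · intro j _ hj
    rw [coeff_C_mul, coeff_X_pow, if_neg, mul_zero]
    intro h
    exact hj (Fin.ext h.symm)
  · intro h
    exact absurd (Finset.mem_univ i) h

theorem count1 {N : ℕ} (hN : 0 < N) (hE : 2 * N + 2 ≤ Nat.card E) :
    1 / (4 * N : ℝ) * (Nat.card E : ℝ) ^ (N + 1) ≤ ((IrrV E N).ncard : ℝ) := by
  classical
  haveI : Fintype E := Fintype.ofFinite E
  have hE' : Nat.card E = Fintype.card E := Nat.card_eq_fintype_card
  have h1 := irr_count (R := 1) hN odd_one E (one_dvd _) (by rw [one_mul, ← hE']; exact hE)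
  rw [one_mul] at h1
  set A := Finset.univ.filter fun a : Fin N → E => GoodP 1 (mF a) with hA
  have h2 : (Fintype.card E - 1) * A.card ≤ (IrrV E N).ncard := by
    have h3 : ((Finset.univ.erase (0 : E)) ×ˢ A).card = (Fintype.card E - 1) * A.card := by
      rw [Finset.card_product, Finset.card_erase_of_mem (Finset.mem_univ _), Finset.card_univ]
    rw [← h3, ← Set.ncard_coe_finset]
    have hpol : ∀ (c : E) (a : Fin N → E),
        pol (n := N) (fun i => (C c * mF a).coeff i) = C c * mF a := by
      intro c a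
      apply pol_coeff
      refine (natDegree_C_mul_le _ _).trans ?_
      rw [mF_natDegree]
    refine Set.ncard_le_ncard_of_injOn (fun x => fun i => (C x.1 * mF x.2).coeff i) ?_ ?_
      (Set.toFinite _)
    · rintro ⟨c, a⟩ hx
      rw [Finset.mem_coe, Finset.mem_product, Finset.mem_erase, hA, Finset.mem_filter] at hx
      obtain ⟨⟨hc, -⟩, -, ha⟩ := hx
      have hc' : c ≠ 0 := hc
      refine ⟨?_, ?_⟩
      · change (pol (n := N) fun i => (C c * mF a).coeff i).natDegree = N
        rw [hpol, natDegree_C_mul hc', mF_natDegree]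
      · change Irreducible (pol (n := N) fun i => (C c * mF a).coeff i)
        rw [hpol]
        exact (irreducible_isUnit_mul (isUnit_C.2 (isUnit_iff_ne_zero.2 hc'))).2 ha.1
    · rintro ⟨c, a⟩ hx ⟨d, b⟩ hy h
      rw [Finset.mem_coe, Finset.mem_product, Finset.mem_erase] at hx hy
      have hc' : c ≠ 0 := hx.1.1
      have e1 : C c * mF a = C d * mF b := by
        rw [← hpol c a, ← hpol d b]
        exact congrArg pol h
      have e2 := congrArg leadingCoeff e1
      rw [leadingCoeff_mul, leadingCoeff_mul, leadingCoeff_C, leadingCoeff_C,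
        (mF_monic a).leadingCoeff, (mF_monic b).leadingCoeff, mul_one, mul_one] at e2
      subst e2
      have e3 : mF a = mF b := mul_left_cancel₀ (C_ne_zero.2 hc') e1
      have e4 : a = b := by
        funext i
        rw [← mF_coeff a i, ← mF_coeff b i, e3]
      rw [e4]
  have hq : (4 : ℝ) ≤ Nat.card E := by
    have : 4 ≤ Nat.card E := by omega
    exact_mod_cast this
  have hNR : (0 : ℝ) < N := by exact_mod_cast hN
  have h3 : ((Nat.card E : ℝ) - 1) * A.card ≤ (IrrV E N).ncard := by
    have h4 : ((Fintype.card E - 1 : ℕ) : ℝ) * A.card ≤ (IrrV E N).ncard := by exact_mod_cast h2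
    rwa [Nat.cast_sub (by rw [← hE']; omega), Nat.cast_one, ← hE'] at h4
  have h4 : (Nat.card E : ℝ) ^ N ≤ 2 * N * A.card := by
    rw [hE']
    exact_mod_cast h1
  have h5 : (0 : ℝ) ≤ A.card := Nat.cast_nonneg _
  rw [one_div, inv_mul_le_iff₀ (by positivity), pow_succ]
  calc (Nat.card E : ℝ) ^ N * Nat.card E ≤ (2 * N * A.card) * Nat.card E :=
        mul_le_mul_of_nonneg_right h4 (by positivity)
    _ ≤ (2 * N * A.card) * (2 * (Nat.card E - 1)) :=
        mul_le_mul_of_nonneg_left (by linarith) (by positivity)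
    _ = 4 * N * ((Nat.card E - 1) * A.card) := by ring
    _ ≤ 4 * N * (IrrV E N).ncard := mul_le_mul_of_nonneg_left h3 (by positivity)

/-- one simple root and an irreducible cofactor of degree `N` -/
def FacV (E : Type) [Field E] (N : ℕ) : Set (Fin (N + 2) → E) :=
  {v | ∃ (α : E) (g : E[X]), g.natDegree = N ∧ Irreducible g ∧ pol v = (X - C α) * g}

theorem count2 {N : ℕ} (hN : 2 ≤ N) (hE : 2 * N + 2 ≤ Nat.card E) :
    1 / (4 * N : ℝ) * (Nat.card E : ℝ) ^ (N + 2) ≤ ((FacV E N).ncard : ℝ) := by
  classical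
  have h1 := count1 (E := E) (N := N) (by omega) hE
  have h2 : Nat.card E * (IrrV E N).ncard ≤ (FacV E N).ncard := by
    have h9 : (Set.univ ×ˢ (IrrV E N) : Set (E × _)).ncard = Nat.card E * (IrrV E N).ncard := by
      rw [Set.ncard_prod, Set.ncard_univ]
    rw [← h9]
    have hpol : ∀ (α : E) (v : Fin (N + 1) → E),
        pol (n := N + 1) (fun i => ((X - C α) * pol v).coeff i) = (X - C α) * pol v := by
      intro α v
      apply pol_coeff
      refine natDegree_mul_le.trans ?_
      rw [natDegree_X_sub_C]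
      have := natDegree_pol_le v
      omega
    refine Set.ncard_le_ncard_of_injOn (fun x => fun i => ((X - C x.1) * pol x.2).coeff i)
      ?_ ?_ (Set.toFinite _)
    · rintro ⟨α, v⟩ ⟨-, hv1, hv2⟩
      exact ⟨α, pol v, hv1, hv2, hpol α v⟩
    · rintro ⟨α, v⟩ ⟨-, hv1, hv2⟩ ⟨β, w⟩ ⟨-, hw1, hw2⟩ h
      have h3 : (X - C α) * pol v = (X - C β) * pol w := by
        rw [← hpol α v, ← hpol β w]
        exact congrArg pol h
      have h4 : α = β := by
        have h5 := congrArg (eval α) h3
        simp only [eval_mul, eval_sub, eval_X, eval_C, sub_self, zero_mul] at h5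
        rcases mul_eq_zero.1 h5.symm with h6 | h6
        · exact sub_eq_zero.1 h6
        · exact absurd h6 (not_root_of_irr hw2 (by rw [hw1]; exact hN) α)
      subst h4
      have h5 : pol v = pol w := mul_left_cancel₀ (X_sub_C_ne_zero α) h3
      rw [pol_injective h5]
  have h3 : (Nat.card E : ℝ) * (IrrV E N).ncard ≤ (FacV E N).ncard := by exact_mod_cast h2
  calc 1 / (4 * N : ℝ) * (Nat.card E : ℝ) ^ (N + 2)
      = Nat.card E * (1 / (4 * N : ℝ) * (Nat.card E : ℝ) ^ (N + 1)) := by ring
    _ ≤ Nat.card E * (IrrV E N).ncard := mul_le_mul_of_nonneg_left h1 (Nat.cast_nonneg _)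
    _ ≤ (FacV E N).ncard := h3

/-- The number of the nonsquares. -/
theorem card_nonsq (hc : ringChar E ≠ 2) (hE : 3 ≤ Nat.card E) :
    (Nat.card E : ℝ) / 4 ≤ ({s : E | ¬ IsSquare s}.ncard : ℝ) := by
  classical
  haveI : Fintype E := Fintype.ofFinite E
  obtain ⟨n₀, hn⟩ := FiniteField.exists_nonsquare hc
  have hn0 : n₀ ≠ 0 := by
    rintro rfl
    exact hn ⟨0, by ring⟩
  set A := {s : E | ¬ IsSquare s} with hA
  set B := {s : E | IsSquare s} with hB
  have h3 : (B \ {0}).ncard ≤ A.ncard := by
    refine Set.ncard_le_ncard_of_injOn (fun s => n₀ * s) ?_ ?_ (Set.toFinite _)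
    · rintro s ⟨⟨r, rfl⟩, hs0⟩ ⟨q, hq⟩
      have hr : r ≠ 0 := by
        rintro rfl
        exact hs0 (by simp)
      apply hn
      refine ⟨q / r, ?_⟩
      field_simp
      linear_combination hq
    · intro s _ t _ h
      exact mul_left_cancel₀ hn0 h
  have h4 : B.ncard + A.ncard = Nat.card E := Set.ncard_add_ncard_compl B
  have h5 : B.ncard ≤ (B \ {0}).ncard + 1 := by
    have := Set.ncard_le_ncard_sdiff_add_ncard B {0}
    rwa [Set.ncard_singleton] at this
  have h6 : Nat.card E ≤ 2 * A.ncard + 1 := by omega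
  have h7 : (Nat.card E : ℝ) ≤ 2 * A.ncard + 1 := by exact_mod_cast h6
  have h8 : (3 : ℝ) ≤ Nat.card E := by exact_mod_cast hE
  linarith

/-- The pairs of polynomials for the count. -/
def SqGood (E : Type) [Field E] (N : ℕ) : Set (Fin (N + 2 + 1) ⊕ Fin (N + 2 + 1) → E) :=
  {w | ∃ (α β : E) (g : E[X]), α ≠ β ∧ Irreducible g ∧ g.natDegree = N ∧
    (pol fun i => w (Sum.inl i)) = (X - C α) * ((X - C β) * g) ∧
    ¬ IsSquare ((pol fun i => w (Sum.inr i)).eval α * (pol fun i => w (Sum.inr i)).eval β)}

theorem count3 (hc : ringChar E ≠ 2) {N : ℕ} (hN : 2 ≤ N) (hE : 2 * N + 2 ≤ Nat.card E) :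
    1 / (128 * N : ℝ) * (Nat.card E : ℝ) ^ Fintype.card (Fin (N + 2 + 1) ⊕ Fin (N + 2 + 1)) ≤
      ((SqGood E N).ncard : ℝ) := by
  classical
  set p := Nat.card E with hp
  let val : E ≃ Fin (Nat.card E) := Finite.equivFin E
  set A := IrrV E N with hA
  set P := {x : E × E | (val x.1).val < (val x.2).val} with hP
  set U := {s : E | ¬ IsSquare s} with hU
  set V := ({0}ᶜ : Set E) with hV
  have hp6 : 6 ≤ p := by omega
  have hpR : (6 : ℝ) ≤ p := by exact_mod_cast hp6
  have hA1 := count1 (E := E) (N := N) (by omega) hE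
  have hU1 := card_nonsq (E := E) hc (by omega)
  rw [← hp] at hA1 hU1
  have hV1 : V.ncard + 1 = p := by
    have h5 := Set.ncard_add_ncard_compl ({0} : Set E)
    rw [Set.ncard_singleton] at h5
    rw [hV]
    omega
  have hval : ∀ x y : E, (val x).val = (val y).val → x = y := fun x y h =>
    val.injective (Fin.ext h)
  have hP1 : (p : ℝ) ^ 2 / 4 ≤ P.ncard := by
    have h1 : P.ncard = ({x : E × E | (val x.2).val < (val x.1).val}).ncard := by
      have h2 : Prod.swap '' P = {x : E × E | (val x.2).val < (val x.1).val} := by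
        ext x
        constructor
        · rintro ⟨y, hy, rfl⟩
          exact hy
        · intro hx
          exact ⟨x.swap, hx, x.swap_swap⟩
      rw [← h2, Set.ncard_image_of_injective _ Prod.swap_injective]
    have h3 : ({x : E × E | x.1 = x.2}).ncard = p := by
      have h4 : (fun s : E => (s, s)) '' Set.univ = {x : E × E | x.1 = x.2} := by
        ext x
        constructor
        · rintro ⟨y, -, rfl⟩
          rfl
        · intro hx
          exact ⟨x.1, trivial, Prod.ext rfl hx⟩
      rw [← h4, Set.ncard_image_of_injective _ (fun a b h => congrArg Prod.fst h), Set.ncard_univ]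
    have h5 : (Set.univ : Set (E × E)) ⊆
        (P ∪ {x : E × E | (val x.2).val < (val x.1).val}) ∪ {x : E × E | x.1 = x.2} := by
      intro x _
      rcases lt_trichotomy (val x.1).val (val x.2).val with h | h | h
      · exact Or.inl (Or.inl h)
      · exact Or.inr (hval _ _ h)
      · exact Or.inl (Or.inr h)
    have h6 := (Set.ncard_le_ncard h5 (Set.toFinite _)).trans ((Set.ncard_union_le _ _).trans
      (Nat.add_le_add_right (Set.ncard_union_le _ _) _))
    rw [← h1, h3, Set.ncard_univ, Nat.card_prod, ← hp] at h6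
    have h7 : (p : ℝ) * p ≤ P.ncard + P.ncard + p := by exact_mod_cast h6
    nlinarith
  have h1 : P.ncard * (A.ncard * ((V.ncard * U.ncard) * p ^ (N + 1))) ≤
      (SqGood E N).ncard := by
    have h9 : (P ×ˢ (A ×ˢ ((V ×ˢ U) ×ˢ (Set.univ : Set (Fin (N + 1) → E))))).ncard =
        P.ncard * (A.ncard * ((V.ncard * U.ncard) * p ^ (N + 1))) := by
      rw [Set.ncard_prod, Set.ncard_prod, Set.ncard_prod, Set.ncard_prod, Set.ncard_univ,
        Nat.card_fun, Nat.card_eq_fintype_card (α := Fin (N + 1)), Fintype.card_fin]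
    rw [← h9]
    let fa : (E × E) → (Fin (N + 1) → E) → E[X] := fun x v =>
      (X - C x.1) * ((X - C x.2) * pol v)
    let fb : (E × E) → (E × E) → (Fin (N + 1) → E) → E[X] :=
      fun x y q => (C (y.1 / (x.1 - x.2)) * (X - C x.2) +
        C (y.2 / y.1 / (x.2 - x.1)) * (X - C x.1)) + (X - C x.1) * ((X - C x.2) * pol q)
    have dega : ∀ x v, (fa x v).natDegree ≤ N + 2 := by
      intro x v
      refine natDegree_mul_le.trans ?_
      rw [natDegree_X_sub_C]
      have h2 : ((X - C x.2) * pol v).natDegree ≤ 1 + N := by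
        refine natDegree_mul_le.trans ?_
        rw [natDegree_X_sub_C]
        have := natDegree_pol_le v
        omega
      omega
    have degb : ∀ x y q, (fb x y q).natDegree ≤ N + 2 := by
      intro x y q
      refine (natDegree_add_le _ _).trans (max_le ?_ (dega x q))
      refine (natDegree_add_le _ _).trans (max_le ?_ ?_)
      · refine (natDegree_C_mul_le _ _).trans ?_
        rw [natDegree_X_sub_C]; omega
      · refine (natDegree_C_mul_le _ _).trans ?_
        rw [natDegree_X_sub_C]; omega
    have eb1 : ∀ x y q, x.1 ≠ x.2 → (fb x y q).eval x.1 = y.1 := by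
      intro x y q hx
      have hx' : x.1 - x.2 ≠ 0 := sub_ne_zero.2 hx
      show eval x.1 _ = _
      simp only [fb, eval_add, eval_mul, eval_sub, eval_X, eval_C, sub_self, mul_zero, zero_mul,
        add_zero]
      field_simp
    have eb2 : ∀ x y q, x.1 ≠ x.2 → (fb x y q).eval x.2 = y.2 / y.1 := by
      intro x y q hx
      have hx' : x.2 - x.1 ≠ 0 := sub_ne_zero.2 (Ne.symm hx)
      show eval x.2 _ = _
      simp only [fb, eval_add, eval_mul, eval_sub, eval_X, eval_C, sub_self, mul_zero, zero_mul,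
        add_zero, zero_add]
      field_simp
    have ne_of : ∀ x ∈ P, x.1 ≠ x.2 := by
      intro x hx h
      have : (val x.1).val < (val x.2).val := hx
      rw [h] at this
      exact lt_irrefl _ this
    refine Set.ncard_le_ncard_of_injOn (fun z => Sum.elim
      (fun i : Fin (N + 2 + 1) => (fa z.1 z.2.1).coeff i)
      (fun i : Fin (N + 2 + 1) => (fb z.1 z.2.2.1 z.2.2.2).coeff i)) ?_ ?_ (Set.toFinite _)
    · rintro ⟨x, v, y, q⟩ ⟨hx, ⟨hv1, hv2⟩, ⟨hy1, hy2⟩, -⟩
      have hne := ne_of x hx
      have ea : (pol fun i : Fin (N + 2 + 1) => (fa x v).coeff i) = fa x v := pol_coeff (dega x v)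
      have ebb : (pol fun i : Fin (N + 2 + 1) => (fb x y q).coeff i) = fb x y q :=
        pol_coeff (degb x y q)
      refine ⟨x.1, x.2, pol v, hne, hv2, hv1, ea, ?_⟩
      show ¬ IsSquare ((pol fun i : Fin (N + 2 + 1) => (fb x y q).coeff i).eval x.1 *
        (pol fun i : Fin (N + 2 + 1) => (fb x y q).coeff i).eval x.2)
      rw [ebb, eb1 x y q hne, eb2 x y q hne]
      have hy0 : y.1 ≠ 0 := hy1
      rw [mul_div_cancel₀ _ hy0]
      exact hy2
    · rintro ⟨x, v, y, q⟩ ⟨hx, ⟨hv1, hv2⟩, ⟨hy1, hy2⟩, -⟩ ⟨x', v', y', q'⟩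
        ⟨hx', ⟨hv1', hv2'⟩, ⟨hy1', hy2'⟩, -⟩ h
      have ea : fa x v = fa x' v' := by
        rw [← pol_coeff (dega x v), ← pol_coeff (dega x' v')]
        congr 1
        funext i
        exact congrFun h (Sum.inl i)
      have ebb : fb x y q = fb x' y' q' := by
        rw [← pol_coeff (degb x y q), ← pol_coeff (degb x' y' q')]
        congr 1
        funext i
        exact congrFun h (Sum.inr i)
      have hne := ne_of x hx
      have hne' := ne_of x' hx'
      have nr := not_root_of_irr hv2 (by rw [hv1]; exact hN)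
      have nr' := not_root_of_irr hv2' (by rw [hv1']; exact hN)
      have r1 : ∀ s, (fa x v).eval s = 0 ↔ s = x.1 ∨ s = x.2 := by
        intro s
        show eval s ((X - C x.1) * ((X - C x.2) * pol v)) = 0 ↔ _
        rw [eval_mul, eval_mul, mul_eq_zero, mul_eq_zero]
        simp only [eval_sub, eval_X, eval_C, sub_eq_zero]
        have := nr s
        rw [IsRoot] at this
        tauto
      have r2 : ∀ s, (fa x' v').eval s = 0 ↔ s = x'.1 ∨ s = x'.2 := by
        intro s
        show eval s ((X - C x'.1) * ((X - C x'.2) * pol v')) = 0 ↔ _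
        rw [eval_mul, eval_mul, mul_eq_zero, mul_eq_zero]
        simp only [eval_sub, eval_X, eval_C, sub_eq_zero]
        have := nr' s
        rw [IsRoot] at this
        tauto
      have hxx : x = x' := by
        have a1 := (r2 x.1).1 (by rw [← ea]; exact (r1 _).2 (Or.inl rfl))
        have a2 := (r2 x.2).1 (by rw [← ea]; exact (r1 _).2 (Or.inr rfl))
        have lt1 : (val x.1).val < (val x.2).val := hx
        have lt2 : (val x'.1).val < (val x'.2).val := hx'
        rcases a1 with a1 | a1 <;> rcases a2 with a2 | a2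
        · exact absurd (a1.trans a2.symm) hne
        · exact Prod.ext a1 a2
        · rw [a1, a2] at lt1
          exact absurd lt1 (not_lt.2 lt2.le)
        · exact absurd (a1.trans a2.symm) hne
      subst hxx
      have hvv : v = v' := by
        have h3 := mul_left_cancel₀ (X_sub_C_ne_zero x.1) ea
        have h4 := mul_left_cancel₀ (X_sub_C_ne_zero x.2) h3
        exact pol_injective h4
      subst hvv
      have y1 : y.1 = y'.1 := by rw [← eb1 x y q hne, ebb, eb1 x y' q' hne]
      have y2 : y.2 = y'.2 := by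
        have h3 : y.2 / y.1 = y'.2 / y'.1 := by rw [← eb2 x y q hne, ebb, eb2 x y' q' hne]
        rw [y1] at h3
        have hy0 : y'.1 ≠ 0 := hy1'
        field_simp at h3
        exact h3
      have hyy : y = y' := Prod.ext y1 y2
      subst hyy
      have hqq : q = q' := by
        have h3 : (X - C x.1) * ((X - C x.2) * pol q) = (X - C x.1) * ((X - C x.2) * pol q') :=
          add_left_cancel ebb
        have h4 := mul_left_cancel₀ (X_sub_C_ne_zero x.1) h3
        have h5 := mul_left_cancel₀ (X_sub_C_ne_zero x.2) h4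
        exact pol_injective h5
      subst hqq
      rfl
  have h2 : (P.ncard : ℝ) * (A.ncard * ((V.ncard * U.ncard) * (p : ℝ) ^ (N + 1))) ≤
      ((SqGood E N).ncard : ℝ) := by exact_mod_cast h1
  refine le_trans ?_ h2
  have hV2 : (p : ℝ) / 2 ≤ V.ncard := by
    have : (V.ncard : ℝ) + 1 = p := by exact_mod_cast hV1
    linarith
  have hcard : Fintype.card (Fin (N + 2 + 1) ⊕ Fin (N + 2 + 1)) = 2 + ((N + 1) + (2 + (N + 1))) := by
    rw [Fintype.card_sum, Fintype.card_fin]
    ring
  rw [hcard]
  have hNR : (0 : ℝ) < N := by exact_mod_cast (by omega : 0 < N)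
  calc 1 / (128 * N : ℝ) * (p : ℝ) ^ (2 + ((N + 1) + (2 + (N + 1))))
      = (p : ℝ) ^ 2 / 4 * ((1 / (4 * N : ℝ) * (p : ℝ) ^ (N + 1)) *
          (((p : ℝ) / 2 * ((p : ℝ) / 4)) * (p : ℝ) ^ (N + 1))) := by
        rw [pow_add, pow_add, pow_add]
        field_simp
        ring
    _ ≤ (P.ncard : ℝ) * (A.ncard * ((V.ncard * U.ncard) * (p : ℝ) ^ (N + 1))) := by
        gcongr

end

end Pool.Agent.Q126.FD
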