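import Mathlib

/-!
Almost all vectors of polynomials over a finite field have good residues modulo some irreducible
polynomial.
-/

set_option autoImplicit false

open Polynomial Filter Topology

namespace Pool.Agent.Q126.FD

section fib

variable {V H : Type} [AddCommGroup V] [AddCommGroup H]

/-- the preimage of a set under a surjective homomorphism -/
theorem ncard_preimage (φ : V →+ H) (hφ : Function.Surjective φ) (T : Set H) :
    Nat.card (φ ⁻¹' T) = Nat.card T * Nat.card φ.ker := by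
  obtain ⟨s, hs⟩ := hφ.hasRightInverse
  rw [← Nat.card_prod]
  refine Nat.card_congr
    { toFun := fun v => (⟨φ v.1, v.2⟩, ⟨v.1 - s (φ v.1), ?_⟩)
      invFun := fun x => ⟨s x.1.1 + x.2.1, ?_⟩
      left_inv := fun v => ?_
      right_inv := fun x => ?_ }
  · rw [AddMonoidHom.mem_ker, map_sub, hs, sub_self]
  · have h1 : φ x.2.1 = 0 := x.2.2
    change φ (s x.1.1 + x.2.1) ∈ T
    rw [map_add, hs, h1, add_zero]
    exact x.1.2
  · apply Subtype.ext
    change s (φ v.1) + (v.1 - s (φ v.1)) = v.1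
    abel
  · have h1 : φ x.2.1 = 0 := x.2.2
    have h2 : φ (s x.1.1 + x.2.1) = x.1.1 := by rw [map_add, hs, h1, add_zero]
    apply Prod.ext
    · apply Subtype.ext
      exact h2
    · apply Subtype.ext
      change s x.1.1 + x.2.1 - s (φ (s x.1.1 + x.2.1)) = x.2.1
      rw [h2]
      abel

end fib

section box

variable (𝔽 : Type) [Field 𝔽] [Finite 𝔽] (κ : Type) [Fintype κ]

/-- the vectors of polynomials of degree less than `D` -/
def Box (D : ℕ) : Set (κ → 𝔽[X]) := {v | ∀ i, v i ∈ degreeLT 𝔽 D}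

variable {𝔽 κ}

instance (D : ℕ) : Finite (degreeLT 𝔽 D) := Finite.of_equiv _ (degreeLTEquiv 𝔽 D).toEquiv.symm

theorem lt_finite (D : ℕ) : ((degreeLT 𝔽 D : Submodule 𝔽 𝔽[X]) : Set 𝔽[X]).Finite := by
  have h : Finite ((degreeLT 𝔽 D : Submodule 𝔽 𝔽[X]) : Set 𝔽[X]) :=
    inferInstanceAs (Finite (degreeLT 𝔽 D))
  exact Set.toFinite _

theorem box_finite (D : ℕ) : (Box 𝔽 κ D).Finite := by
  have h : Box 𝔽 κ D = Set.pi Set.univ fun _ => ((degreeLT 𝔽 D : Submodule 𝔽 𝔽[X]) : Set 𝔽[X]) := by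
    ext v
    simp [Box]
  rw [h]
  exact Set.Finite.pi fun _ => lt_finite D

/-- the box as a group -/
def toBox (D : ℕ) : (κ → degreeLT 𝔽 D) ≃ Box 𝔽 κ D where
  toFun v := ⟨fun i => (v i).1, fun i => (v i).2⟩
  invFun v := fun i => ⟨v.1 i, v.2 i⟩
  left_inv _ := rfl
  right_inv _ := rfl

theorem ncard_box (D : ℕ) : (Box 𝔽 κ D).ncard = Nat.card (κ → degreeLT 𝔽 D) :=
  (Nat.card_congr (toBox D)).symm

theorem ncard_box_pos (D : ℕ) : 0 < (Box 𝔽 κ D).ncard := by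
  rw [ncard_box]
  exact Nat.card_pos

/-- the vector of the residues -/
noncomputable def res (π : 𝔽[X]) (v : κ → 𝔽[X]) : κ → 𝔽[X] ⧸ Ideal.span {π} :=
  fun i => Ideal.Quotient.mk _ (v i)

/-- the residues modulo several polynomials -/
noncomputable def resHom {ι : Type} (π : ι → 𝔽[X]) (D : ℕ) :
    (κ → degreeLT 𝔽 D) →+ (∀ j : ι, κ → 𝔽[X] ⧸ Ideal.span {π j}) where
  toFun v := fun j i => Ideal.Quotient.mk _ (v i).1
  map_zero' := by
    funext j i
    exact map_zero _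
  map_add' v w := by
    funext j i
    exact map_add _ _ _

theorem resHom_surj {ι : Type} [Fintype ι] {π : ι → 𝔽[X]} (hm : ∀ j, (π j).Monic)
    (hc : Pairwise fun i j => IsCoprime (π i) (π j)) {D : ℕ} (hD : (∏ j, π j).natDegree ≤ D) :
    Function.Surjective (resHom (κ := κ) π D) := by
  intro h
  have hI : Pairwise fun i j => IsCoprime (Ideal.span {π i}) (Ideal.span {π j}) := by
    intro i j hij
    exact (Ideal.isCoprime_span_singleton_iff _ _).2 (hc hij)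
  have hM : (∏ j, π j).Monic := monic_prod_of_monic _ _ fun j _ => hm j
  choose a ha using fun i => Ideal.pi_quotient_surjective hI (fun j => h j i)
  refine ⟨fun i => ⟨a i %ₘ ∏ j, π j, ?_⟩, ?_⟩
  · rw [mem_degreeLT]
    refine (degree_modByMonic_lt _ hM).trans_le ?_
    refine degree_le_natDegree.trans ?_
    exact_mod_cast hD
  · funext j i
    change Ideal.Quotient.mk _ (a i %ₘ ∏ j, π j) = h j i
    rw [← ha i j, Ideal.Quotient.mk_eq_mk_iff_sub_mem, Ideal.mem_span_singleton]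
    have h1 : a i %ₘ (∏ j, π j) - a i = -((∏ j, π j) * (a i /ₘ ∏ j, π j)) := by
      linear_combination modByMonic_add_div (a i) (∏ j, π j)
    rw [h1, dvd_neg]
    exact (Finset.dvd_prod_of_mem π (Finset.mem_univ j)).mul_right _

end box

section count

variable {𝔽 : Type} [Field 𝔽] [Finite 𝔽] {κ : Type} [Fintype κ]

/-- the residue ring is finite -/
theorem finite_res {π : 𝔽[X]} (hm : π.Monic) : Finite (𝔽[X] ⧸ Ideal.span {π}) := by
  have h : Module.Finite 𝔽 (AdjoinRoot π) := hm.finite_adjoinRoot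
  exact Module.finite_of_finite 𝔽 (M := AdjoinRoot π)

theorem bad_le {ι : Type} [Fintype ι] {π : ι → 𝔽[X]} (hm : ∀ j, (π j).Monic)
    (hc : Pairwise fun i j => IsCoprime (π i) (π j)) {D : ℕ} (hD : (∏ j, π j).natDegree ≤ D)
    {δ : ℝ} (hδ : δ ≤ 1) {G : ∀ j, Set (κ → 𝔽[X] ⧸ Ideal.span {π j})}
    (hG : ∀ j, δ * Nat.card (κ → 𝔽[X] ⧸ Ideal.span {π j}) ≤ (G j).ncard)
    {S : Set (κ → 𝔽[X])} (hS : ∀ v j, res (π j) v ∈ G j → v ∈ S) :
    ((Box 𝔽 κ D \ S).ncard : ℝ) ≤ (1 - δ) ^ Fintype.card ι * (Box 𝔽 κ D).ncard := by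
  classical
  have hfin : ∀ j, Finite (𝔽[X] ⧸ Ideal.span {π j}) := fun j => finite_res (hm j)
  set φ := resHom (κ := κ) π D with hφ
  have hsurj := resHom_surj (κ := κ) hm hc hD
  set T : Set (∀ j, κ → 𝔽[X] ⧸ Ideal.span {π j}) := Set.pi Set.univ fun j => (G j)ᶜ with hT
  have h1 := ncard_preimage φ hsurj T
  have h2 := ncard_preimage φ hsurj Set.univ
  rw [Set.preimage_univ, Nat.card_congr (Equiv.Set.univ _), Nat.card_congr (Equiv.Set.univ _)] at h2
  have h3 : (Box 𝔽 κ D \ S).ncard ≤ Nat.card (φ ⁻¹' T) := by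
    have h4 : (fun v : κ → degreeLT 𝔽 D => fun i => (v i).1) '' (φ ⁻¹' T) ⊇ Box 𝔽 κ D \ S := by
      rintro v ⟨hv, hvS⟩
      refine ⟨fun i => ⟨v i, hv i⟩, ?_, rfl⟩
      rw [Set.mem_preimage, hT, Set.mem_univ_pi]
      intro j hj
      exact hvS (hS v j hj)
    refine (Set.ncard_le_ncard h4 (Set.toFinite _)).trans ?_
    exact Set.ncard_image_le (Set.toFinite _)
  have h4 : Nat.card T = ∏ j, Nat.card ((G j)ᶜ : Set _) := by
    rw [Nat.card_congr (Equiv.Set.univPi _), Nat.card_pi]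
  have h5 : Nat.card (∀ j, κ → 𝔽[X] ⧸ Ideal.span {π j}) =
      ∏ j, Nat.card (κ → 𝔽[X] ⧸ Ideal.span {π j}) := Nat.card_pi
  have h6 : ∀ j, (Nat.card ((G j)ᶜ : Set _) : ℝ) ≤
      (1 - δ) * Nat.card (κ → 𝔽[X] ⧸ Ideal.span {π j}) := by
    intro j
    have h7 := Set.ncard_add_ncard_compl (G j)
    have h8 : (((G j)ᶜ).ncard : ℝ) = Nat.card (κ → 𝔽[X] ⧸ Ideal.span {π j}) - (G j).ncard := by
      rw [← h7]
      push_cast
      ring
    change (((G j)ᶜ).ncard : ℝ) ≤ _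
    rw [h8]
    have := hG j
    linarith
  rw [ncard_box]
  have h7 : (Nat.card (φ ⁻¹' T) : ℝ) ≤ (1 - δ) ^ Fintype.card ι * Nat.card (κ → degreeLT 𝔽 D) := by
    rw [h1, h2, h4, h5]
    push_cast
    have h8 : ∏ j, (Nat.card ((G j)ᶜ : Set _) : ℝ) ≤
        (1 - δ) ^ Fintype.card ι * ∏ j, (Nat.card (κ → 𝔽[X] ⧸ Ideal.span {π j}) : ℝ) := by
      refine (Finset.prod_le_prod (fun j _ => Nat.cast_nonneg _) fun j _ => h6 j).trans ?_
      rw [Finset.prod_mul_distrib, Finset.prod_const, Finset.card_univ]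
    calc (∏ j, (Nat.card ((G j)ᶜ : Set _) : ℝ)) * (Nat.card φ.ker : ℝ)
        ≤ ((1 - δ) ^ Fintype.card ι * ∏ j, (Nat.card (κ → 𝔽[X] ⧸ Ideal.span {π j}) : ℝ)) *
          (Nat.card φ.ker : ℝ) := mul_le_mul_of_nonneg_right h8 (Nat.cast_nonneg _)
      _ = _ := by ring
  exact (by exact_mod_cast h3 : ((Box 𝔽 κ D \ S).ncard : ℝ) ≤ Nat.card (φ ⁻¹' T)).trans h7

/-- there are infinitely many monic irreducible polynomials of large degree -/
theorem infinite_irr (N : ℕ) : {π : 𝔽[X] | π.Monic ∧ Irreducible π ∧ N ≤ π.natDegree}.Infinite := by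
  classical
  have h1 : {π : 𝔽[X] | π.Monic ∧ Irreducible π}.Infinite := by
    intro hfin
    set T := hfin.toFinset with hT
    set p : 𝔽[X] := X * ∏ π ∈ T, π + 1 with hp
    have hmonic : (∏ π ∈ T, π : 𝔽[X]).Monic :=
      monic_prod_of_monic _ _ fun π hπ => ((Set.Finite.mem_toFinset hfin).1 hπ).1
    have hd : p.natDegree ≠ 0 := by
      have h2 : (X * ∏ π ∈ T, π : 𝔽[X]).natDegree = 1 + (∏ π ∈ T, π : 𝔽[X]).natDegree := by
        rw [(monic_X (R := 𝔽)).natDegree_mul hmonic, natDegree_X]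
      have h3 : p.natDegree = 1 + (∏ π ∈ T, π : 𝔽[X]).natDegree := by
        rw [hp, natDegree_add_eq_left_of_natDegree_lt, h2]
        rw [natDegree_one, h2]
        omega
      omega
    have hu : ¬ IsUnit p := fun h => hd (natDegree_eq_zero_of_isUnit h)
    obtain ⟨g, hg1, hg2, hg3⟩ := exists_monic_irreducible_factor p hu
    have hgT : g ∈ T := (Set.Finite.mem_toFinset hfin).2 ⟨hg1, hg2⟩
    have h4 : g ∣ X * ∏ π ∈ T, π := (Finset.dvd_prod_of_mem (fun π => π) hgT).mul_left _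
    have h5 : g ∣ 1 := (dvd_add_right h4).1 hg3
    exact hg2.not_isUnit (isUnit_of_dvd_one h5)
  have h2 : {π : 𝔽[X] | π.natDegree < N}.Finite := by
    apply (lt_finite (𝔽 := 𝔽) N).subset
    intro π hπ
    rw [SetLike.mem_coe, mem_degreeLT]
    refine degree_le_natDegree.trans_lt ?_
    exact_mod_cast hπ
  refine (h1.sdiff h2).mono ?_
  rintro π ⟨⟨h3, h4⟩, h5⟩
  exact ⟨h3, h4, not_lt.1 h5⟩

/-- **The density.** -/
theorem density {P : Set 𝔽[X]} (hP : P.Infinite) (hm : ∀ π ∈ P, π.Monic ∧ Irreducible π) {δ : ℝ}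
    (hδ0 : 0 < δ) (hδ : δ ≤ 1) {G : ∀ π : 𝔽[X], Set (κ → 𝔽[X] ⧸ Ideal.span {π})}
    (hG : ∀ π ∈ P, δ * Nat.card (κ → 𝔽[X] ⧸ Ideal.span {π}) ≤ (G π).ncard)
    {S : Set (κ → 𝔽[X])} (hS : ∀ v, ∀ π ∈ P, res π v ∈ G π → v ∈ S) :
    Tendsto (fun D : ℕ => ((Box 𝔽 κ D ∩ S).ncard : ℝ) / (Box 𝔽 κ D).ncard) atTop (𝓝 1) := by
  classical
  rw [Metric.tendsto_atTop]
  intro η hη
  have h1 : Tendsto (fun s : ℕ => (1 - δ) ^ s) atTop (𝓝 0) :=
    tendsto_pow_atTop_nhds_zero_of_lt_one (by linarith) (by linarith)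
  obtain ⟨s, hs⟩ := ((tendsto_order.1 h1).2 η hη).exists
  obtain ⟨T, hTP, hTc⟩ := hP.exists_subset_card_eq s
  refine ⟨(∏ π : T, (π : 𝔽[X])).natDegree, fun D hD => ?_⟩
  have h2 := bad_le (κ := κ) (π := fun π : T => (π : 𝔽[X])) (fun π => (hm _ (hTP π.2)).1) (by
      intro i j hij
      have hi := hm _ (hTP i.2)
      have hj := hm _ (hTP j.2)
      rw [hi.2.coprime_iff_not_dvd]
      intro hdv
      apply hij
      apply Subtype.ext
      exact eq_of_monic_of_associated hi.1 hj.1 (hi.2.associated_of_dvd hj.2 hdv)) (D := D) hD hδ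
    (G := fun π => G π) (fun π => hG _ (hTP π.2)) (S := S) (fun v π h => hS v _ (hTP π.2) h)
  rw [Fintype.card_coe, hTc] at h2
  have hpos : (0 : ℝ) < (Box 𝔽 κ D).ncard := by exact_mod_cast ncard_box_pos (𝔽 := 𝔽) (κ := κ) D
  have h3 : ((Box 𝔽 κ D ∩ S).ncard : ℝ) = (Box 𝔽 κ D).ncard - (Box 𝔽 κ D \ S).ncard := by
    have h4 := Set.ncard_inter_add_ncard_diff_eq_ncard (Box 𝔽 κ D) S (box_finite D)
    rw [← h4]
    push_cast
    ring
  rw [Real.dist_eq, h3, sub_div, div_self hpos.ne']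
  have h4 : ((Box 𝔽 κ D \ S).ncard : ℝ) / (Box 𝔽 κ D).ncard ≤ (1 - δ) ^ s := by
    rw [div_le_iff₀ hpos]
    exact h2
  have h5 : 0 ≤ ((Box 𝔽 κ D \ S).ncard : ℝ) / (Box 𝔽 κ D).ncard :=
    div_nonneg (Nat.cast_nonneg _) (Nat.cast_nonneg _)
  rw [abs_lt]
  constructor <;> linarith

end count

end Pool.Agent.Q126.FD
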