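import Pool.Agent.Q126.FD.Full

/-!
Finitely generated extensions of `𝔽(u)` have infinitely many places of degree one over `𝔽(u)`.
-/

set_option autoImplicit false
set_option linter.all false

open Polynomial

namespace Pool.Agent.Q126.FD

section indep

variable {E : Type} [Field E]

theorem not_countable_set_nat : ¬ Countable (Set ℕ) := by
  intro h
  obtain ⟨f, hf⟩ := exists_surjective_nat (Set ℕ)
  exact Function.cantor_surjective f hf

theorem uncountable_disc (a : E) :
    ¬ {z : PowerSeries E | PowerSeries.constantCoeff z = a}.Countable := by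
  classical
  intro h
  apply not_countable_set_nat
  let g : Set ℕ → PowerSeries E := fun T =>
    PowerSeries.C a + PowerSeries.X * PowerSeries.mk fun n => if n ∈ T then (1 : E) else 0
  have hg : ∀ T, g T ∈ {z : PowerSeries E | PowerSeries.constantCoeff z = a} := by
    intro T
    change PowerSeries.constantCoeff _ = _
    simp [g]
  have hinj : Function.Injective g := by
    intro S T hST
    have h1 : PowerSeries.X * (PowerSeries.mk fun n => if n ∈ S then (1 : E) else 0) =
        PowerSeries.X * PowerSeries.mk fun n => if n ∈ T then (1 : E) else 0 :=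
      add_left_cancel hST
    have h2 := mul_left_cancel₀ PowerSeries.X_ne_zero h1
    ext n
    have h3 := congrArg (PowerSeries.coeff n) h2
    rw [PowerSeries.coeff_mk, PowerSeries.coeff_mk] at h3
    by_cases hS : n ∈ S <;> by_cases hT : n ∈ T
    · exact ⟨fun _ => hT, fun _ => hS⟩
    · rw [if_pos hS, if_neg hT] at h3
      exact absurd h3 one_ne_zero
    · rw [if_neg hS, if_pos hT] at h3
      exact absurd h3.symm one_ne_zero
    · exact ⟨fun h => absurd h hS, fun h => absurd h hT⟩
  have h4 : Countable {z : PowerSeries E | PowerSeries.constantCoeff z = a} := h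
  exact Function.Injective.countable (f := fun T => (⟨g T, hg T⟩ :
    {z : PowerSeries E | PowerSeries.constantCoeff z = a})) fun S T hST =>
      hinj (congrArg Subtype.val hST)

/-- Algebraically independent power series with given constant terms. -/
theorem exists_indep (A : Type) [CommRing A] [IsDomain A] [Countable A]
    [Algebra A (PowerSeries E)] (hinj : Function.Injective (algebraMap A (PowerSeries E)))
    (σ : Type) [Finite σ] : ∀ a : σ → E, ∃ ξ : σ → PowerSeries E,
      (∀ i, PowerSeries.constantCoeff (ξ i) = a i) ∧ AlgebraicIndependent A ξ := by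
  induction σ using Finite.induction_empty_option with
  | of_equiv e h =>
    intro a
    obtain ⟨ξ, h1, h2⟩ := h (fun i => a (e i))
    refine ⟨fun j => ξ (e.symm j), fun j => ?_, ?_⟩
    · rw [h1, e.apply_symm_apply]
    · exact h2.comp _ e.symm.injective
  | h_empty =>
    intro a
    refine ⟨fun i => i.elim, fun i => i.elim, ?_⟩
    exact algebraicIndependent_empty_type_iff.2 hinj
  | @h_option τ _ h =>
    intro a
    obtain ⟨ξ, h1, h2⟩ := h (fun i => a (some i))
    haveI : Countable (Algebra.adjoin A (Set.range ξ)) := by
      haveI : Countable (MvPolynomial τ A) := by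
        rw [← Cardinal.mk_le_aleph0_iff]
        refine MvPolynomial.cardinalMk_le_max.trans ?_
        rw [max_le_iff, max_le_iff]
        refine ⟨⟨Cardinal.mk_le_aleph0_iff.2 inferInstance, Cardinal.mk_le_aleph0_iff.2 ?_⟩, le_rfl⟩
        exact Finite.to_countable
      have h3 : (Algebra.adjoin A (Set.range ξ)) = (MvPolynomial.aeval (R := A) ξ).range :=
        Algebra.adjoin_range_eq_range_aeval A ξ
      rw [h3]
      exact (MvPolynomial.aeval (R := A) ξ).rangeRestrict_surjective.countable
    have h4 := Algebraic.countable (Algebra.adjoin A (Set.range ξ)) (PowerSeries E)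
    obtain ⟨z, hz1, hz2⟩ : ∃ z : PowerSeries E, PowerSeries.constantCoeff z = a none ∧
        ¬ IsAlgebraic (Algebra.adjoin A (Set.range ξ)) z := by
      by_contra hcon
      push Not at hcon
      exact uncountable_disc (a none) (h4.mono hcon)
    refine ⟨fun o => o.elim z ξ, ?_, (h2.option_iff_transcendental z).2 hz2⟩
    rintro (_ | i)
    · exact hz1
    · exact h1 i

end indep

section schur

variable {𝔽 : Type} [Field 𝔽] [Finite 𝔽]

/-- **Schur's lemma** on the prime divisors of the values of a polynomial. -/
theorem schur {F : 𝔽[X][X]} (hF : 0 < F.natDegree) {N : 𝔽[X]} (hN : N ≠ 0) :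
    {π : 𝔽[X] | π.Monic ∧ Irreducible π ∧ ¬ π ∣ N ∧ ∃ y, π ∣ F.eval y}.Infinite := by
  classical
  by_cases hc : F.eval 0 = 0
  · refine (infinite_irr (𝔽 := 𝔽) (N.natDegree + 1)).mono ?_
    rintro π ⟨h1, h2, h3⟩
    refine ⟨h1, h2, fun hd => ?_, 0, by rw [hc]; exact dvd_zero _⟩
    have := natDegree_le_of_dvd hd hN
    omega
  · intro hfin
    set c := F.eval 0 with hcdef
    set P : 𝔽[X] := N * ∏ π ∈ hfin.toFinset, π with hP
    have hP0 : P ≠ 0 := by
      refine mul_ne_zero hN (Finset.prod_ne_zero_iff.2 fun π hπ => ?_)
      exact ((Set.Finite.mem_toFinset hfin).1 hπ).1.ne_zero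
    -- the values are constants times `c`
    have key : ∀ z : 𝔽[X], ∃ a : 𝔽, F.eval (c * P * z) = c * C a := by
      intro z
      obtain ⟨w, hw⟩ := sub_dvd_eval_sub (c * P * z) 0 F
      rw [sub_zero, ← hcdef] at hw
      have h1 : F.eval (c * P * z) = c * (1 + P * (z * w)) := by
        linear_combination hw
      have h2 : IsUnit (1 + P * (z * w)) := by
        by_contra hu
        obtain ⟨π, hm, hi, hd⟩ := exists_monic_irreducible_factor _ hu
        have hπP : ¬ π ∣ P := by
          intro h
          have h3 : π ∣ 1 := (dvd_add_left (h.mul_right _)).1 hd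
          exact hi.not_isUnit (isUnit_of_dvd_one h3)
        have hmem : π ∈ hfin.toFinset := by
          rw [Set.Finite.mem_toFinset]
          refine ⟨hm, hi, fun h => hπP (h.mul_right _), c * P * z, ?_⟩
          rw [h1]
          exact hd.mul_left _
        exact hπP ((Finset.dvd_prod_of_mem (fun π => π) hmem).mul_left _)
      obtain ⟨a, -, ha⟩ := isUnit_iff.1 h2
      exact ⟨a, by rw [h1, ← ha]⟩
    choose g hg using key
    obtain ⟨a, ha⟩ := Finite.exists_infinite_fiber g
    have h3 : (F.comp (C (c * P) * X) - C (c * C a)) = 0 := by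
      apply eq_zero_of_infinite_isRoot
      refine (Set.infinite_coe_iff.1 ha).mono ?_
      intro z hz
      have hz' : g z = a := hz
      change eval z _ = 0
      rw [eval_sub, eval_comp, eval_mul, eval_C, eval_X, eval_C, hg z, hz', sub_self]
    have h4 : (F.comp (C (c * P) * X)).natDegree = 0 := by
      rw [sub_eq_zero.1 h3, natDegree_C]
    rw [natDegree_comp, natDegree_C_mul_X _ (mul_ne_zero hc hP0), mul_one] at h4
    omega

end schur

end Pool.Agent.Q126.FD
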