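import Pool.Agent.Q126.FD.Sep

/-!
All finitely generated extensions of `𝔽(u)` have infinitely many places of degree one over `𝔽(u)`.
-/

set_option autoImplicit false
set_option linter.all false

open Polynomial

namespace Pool.Agent.Q126.FD

section insep

variable {𝔽 : Type} [Field 𝔽] [Finite 𝔽]

/-- Purely inseparable extensions. -/
theorem hasPlace_insep {k₁ k : Type} [Field k₁] [Field k] [Algebra 𝔽[X] k₁] [Algebra 𝔽[X] k]
    [Algebra k₁ k] [IsScalarTower 𝔽[X] k₁ k] [FiniteDimensional k₁ k] [IsPurelyInseparable k₁ k]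
    {π : 𝔽[X]} (h : HasPlace k₁ π) : HasPlace k π := by
  intro E _ _ ρ hρ hker
  obtain ⟨p, hp⟩ := CharP.exists 𝔽
  haveI : Fact p.Prime := ⟨CharP.char_is_prime 𝔽 p⟩
  haveI : CharP E p := charP_of_injective_ringHom (f := ρ.comp C) (RingHom.injective _) p
  haveI : CharP k₁ p := charP_of_injective_ringHom (f := (algebraMap 𝔽[X] k₁).comp C)
    (RingHom.injective _) p
  haveI : ExpChar k₁ p := ExpChar.prime (Fact.out : p.Prime)
  haveI : ExpChar E p := ExpChar.prime (Fact.out : p.Prime)
  haveI : PerfectRing E p := PerfectRing.ofFiniteOfIsReduced p E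
  set n := IsPurelyInseparable.exponent k₁ k with hn
  let θ : k →+* k₁ := IsPurelyInseparable.iterateFrobenius k₁ k p (n := n) le_rfl
  have hθ : ∀ x : k₁, θ (algebraMap k₁ k x) = x ^ p ^ n := fun x =>
    IsPurelyInseparable.iterateFrobenius_algebraMap k p le_rfl x
  let τ : E ≃+* E := (iterateFrobeniusEquiv E p n).symm
  have hτ : ∀ x : E, τ x ^ p ^ n = x := by
    intro x
    have h1 := (iterateFrobeniusEquiv E p n).apply_symm_apply x
    rw [iterateFrobeniusEquiv_def] at h1
    exact h1
  obtain ⟨O, L, i1, i2, i3, i4, i5, i6, ρ', ι, φ, h1, h2, h3⟩ := h E (τ.toRingHom.comp ρ)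
    (τ.surjective.comp hρ) (by
      rw [← hker]
      ext x
      rw [RingHom.mem_ker, RingHom.mem_ker]
      constructor
      · intro hx
        exact τ.injective (by rw [map_zero]; exact hx)
      · intro hx
        change τ (ρ x) = 0
        rw [hx, map_zero])
  haveI : CharP O p := by
    haveI : CharP L p := charP_of_injective_ringHom (f := φ) φ.injective p
    exact (RingHom.charP_iff (algebraMap O L) (IsFractionRing.injective O L) p).2 inferInstance
  haveI : ExpChar O p := ExpChar.prime (Fact.out : p.Prime)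
  refine ⟨O, L, i1, i2, i3, i4, i5, i6, ρ', (iterateFrobenius O p n).comp ι, φ.comp θ, h1,
    fun f => ?_, fun f => ?_⟩
  · rw [RingHom.comp_apply, iterateFrobenius_def, map_pow, h2]
    exact hτ (ρ f)
  · rw [RingHom.comp_apply, RingHom.comp_apply, iterateFrobenius_def,
      IsScalarTower.algebraMap_apply 𝔽[X] k₁ k, hθ, map_pow, map_pow, h3]

end insep

section fg

variable {𝔽 : Type} [Field 𝔽] [Finite 𝔽]

/-- **Finitely generated extensions of `𝔽(u)`.** -/
theorem rich_fg (k : Type) [Field k] [Algebra 𝔽[X] k]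
    (hinj : Function.Injective (algebraMap 𝔽[X] k)) (s : Finset k)
    (hs : Subfield.closure (Set.range (algebraMap 𝔽[X] k) ∪ (s : Set k)) = ⊤) : Rich 𝔽 k := by
  classical
  haveI : FaithfulSMul 𝔽[X] k := (faithfulSMul_iff_algebraMap_injective _ _).2 hinj
  -- every element is a quotient of elements of the algebra generated by `s`
  have hquot : ∀ x : k, ∃ a b : Algebra.adjoin 𝔽[X] (s : Set k), (b : k) ≠ 0 ∧ x = a / b := by
    intro x
    have hx : x ∈ Subfield.closure (Set.range (algebraMap 𝔽[X] k) ∪ (s : Set k)) := by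
      rw [hs]; trivial
    rw [Subfield.mem_closure_iff] at hx
    obtain ⟨y, hy, z, hz, hyz⟩ := hx
    have hsub : Subring.closure (Set.range (algebraMap 𝔽[X] k) ∪ (s : Set k)) ≤
        (Algebra.adjoin 𝔽[X] (s : Set k)).toSubring := by
      rw [Subring.closure_le]
      rintro w (⟨c, rfl⟩ | hw)
      · exact Subalgebra.algebraMap_mem _ c
      · exact Algebra.subset_adjoin hw
    by_cases hz0 : z = 0
    · refine ⟨0, 1, one_ne_zero, ?_⟩
      rw [← hyz, hz0]
      simp
    · exact ⟨⟨y, hsub hy⟩, ⟨z, hsub hz⟩, hz0, hyz.symm⟩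
  haveI : Algebra.IsAlgebraic (Algebra.adjoin 𝔽[X] (s : Set k)) k := by
    refine ⟨fun x => ?_⟩
    obtain ⟨a, b, hb, rfl⟩ := hquot x
    refine ⟨C b * X - C a, ?_, ?_⟩
    · intro h0
      have h1 := congrArg (fun q : (Algebra.adjoin 𝔽[X] (s : Set k))[X] => q.coeff 1) h0
      simp only [coeff_sub, coeff_C_mul, coeff_X_one, mul_one, coeff_C_succ, sub_zero,
        coeff_zero] at h1
      exact hb (by rw [h1]; rfl)
    · rw [map_sub, map_mul, aeval_C, aeval_C, aeval_X]
      change (b : k) * (a / b) - a = 0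
      field_simp
      ring
  obtain ⟨t, hts, ht⟩ := exists_isTranscendenceBasis_subset (R := 𝔽[X]) (A := k) (s : Set k)
  haveI : Finite t := Set.Finite.subset s.finite_toSet hts
  set M := MvPolynomial t 𝔽[X] with hM
  letI : Algebra M k := (MvPolynomial.aeval (R := 𝔽[X]) ((↑) : t → k)).toAlgebra
  have hMinj : Function.Injective (algebraMap M k) := ht.1
  haveI : FaithfulSMul M k := (faithfulSMul_iff_algebraMap_injective _ _).2 hMinj
  set K₀ := FractionRing M with hK₀
  letI : Algebra K₀ k := FractionRing.liftAlgebra M k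
  haveI : IsScalarTower M K₀ k := FractionRing.isScalarTower_liftAlgebra M k
  have hC : ∀ f : 𝔽[X], algebraMap 𝔽[X] k f =
      algebraMap K₀ k (algebraMap M K₀ (MvPolynomial.C f)) := by
    intro f
    rw [← IsScalarTower.algebraMap_apply M K₀ k]
    change _ = MvPolynomial.aeval (R := 𝔽[X]) ((↑) : t → k) (MvPolynomial.C f)
    rw [MvPolynomial.aeval_C]
  -- algebraic
  have halg : ∀ x : k, IsIntegral K₀ x := by
    intro x
    have h1 : Algebra.IsAlgebraic (Algebra.adjoin 𝔽[X] (Set.range ((↑) : t → k))) k :=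
      ht.isAlgebraic
    have h2 : IsAlgebraic (Algebra.adjoin 𝔽[X] (Set.range ((↑) : t → k))) x := h1.isAlgebraic x
    obtain ⟨P, hP0, hP⟩ := h2
    have h3 : ∀ y : Algebra.adjoin 𝔽[X] (Set.range ((↑) : t → k)), ∃ m : M,
        algebraMap M k m = y := by
      intro y
      have h4 : (y : k) ∈ (MvPolynomial.aeval (R := 𝔽[X]) ((↑) : t → k)).range := by
        rw [← Algebra.adjoin_range_eq_range_aeval]
        exact y.2
      exact h4
    apply IsAlgebraic.isIntegral
    choose g hg using h3
    have hPm : ∃ Q : k[X], Q = P.map (algebraMap _ k) := ⟨_, rfl⟩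
    let Q : K₀[X] := P.sum fun i c => C (algebraMap M K₀ (g c)) * X ^ i
    have hQ : Q.map (algebraMap K₀ k) = P.map (algebraMap _ k) := by
      change (P.sum fun i c => C (algebraMap M K₀ (g c)) * X ^ i).map (algebraMap K₀ k) = _
      rw [Polynomial.sum_def, Polynomial.map_sum]
      conv_rhs => rw [← Polynomial.sum_C_mul_X_pow_eq P, Polynomial.sum_def, Polynomial.map_sum]
      refine Finset.sum_congr rfl fun i _ => ?_
      rw [Polynomial.map_mul, Polynomial.map_mul, map_C, map_C, Polynomial.map_pow,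
        Polynomial.map_pow, map_X, map_X, ← IsScalarTower.algebraMap_apply M K₀ k, hg]
      rfl
    refine ⟨Q, ?_, ?_⟩
    · intro h0
      rw [h0, Polynomial.map_zero] at hQ
      apply hP0
      exact (Polynomial.map_eq_zero_iff (Subtype.val_injective)).1 hQ.symm
    · rw [aeval_def, eval₂_eq_eval_map, hQ, ← eval₂_eq_eval_map]
      exact hP
  -- finite
  haveI : FiniteDimensional K₀ k := by
    have h1 : FiniteDimensional K₀ (IntermediateField.adjoin K₀ (s : Set k)) := by
      haveI : Finite (s : Set k) := s.finite_toSet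
      exact IntermediateField.finiteDimensional_adjoin fun x _ => halg x
    have h2 : IntermediateField.adjoin K₀ (s : Set k) = ⊤ := by
      rw [eq_top_iff]
      intro x _
      obtain ⟨a, b, hb, rfl⟩ := hquot x
      have h3 : ∀ y : Algebra.adjoin 𝔽[X] (s : Set k),
          (y : k) ∈ IntermediateField.adjoin K₀ (s : Set k) := by
        intro y
        have h4 : (Algebra.adjoin 𝔽[X] (s : Set k)).toSubring ≤
            (IntermediateField.adjoin K₀ (s : Set k)).toSubfield.toSubring := by
          intro w hw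
          refine Algebra.adjoin_induction (fun w hw => ?_) (fun c => ?_) (fun _ _ _ _ h5 h6 => ?_)
            (fun _ _ _ _ h5 h6 => ?_) hw
          · exact IntermediateField.subset_adjoin K₀ _ hw
          · rw [hC]
            exact IntermediateField.algebraMap_mem _ _
          · exact add_mem h5 h6
          · exact mul_mem h5 h6
        exact h4 y.2
      exact div_mem (h3 a) (h3 b)
    rw [h2] at h1
    exact Module.Finite.equiv (IntermediateField.topEquiv (F := K₀) (E := k)).toLinearEquiv
  -- the separable part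
  let k₁ := separableClosure K₀ k
  letI : Algebra 𝔽[X] k₁ := ((algebraMap K₀ k₁).comp ((algebraMap M K₀).comp
    MvPolynomial.C)).toAlgebra
  haveI : IsScalarTower 𝔽[X] k₁ k := IsScalarTower.of_algebraMap_eq fun f => by
    rw [hC]
    rfl
  have h1 : Rich 𝔽 k₁ := places_sep (𝔽 := 𝔽) (σ := t) (K₀ := K₀) (k := k₁) fun f => rfl
  haveI : FiniteDimensional k₁ k := Module.Finite.of_restrictScalars_finite K₀ k₁ k
  intro D
  refine (h1 D).mono ?_
  rintro π ⟨hm, hi, hd, hp⟩
  exact ⟨hm, hi, hd, hasPlace_insep hp⟩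

end fg

end Pool.Agent.Q126.FD
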