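import Pool.Agent.Q126.FD.Place
import Pool.Agent.Q126.FD.Count
import Pool.Agent.TH115.SD.RootM

/-!
Almost all members of families of polynomials over `𝔽[u]` are irreducible, are not norms, and have
nonsquare residues, over fields with many places over `𝔽(u)`.
-/

set_option autoImplicit false
set_option linter.all false

open Polynomial Filter Topology Pool.Agent.TH115.GD

namespace Pool.Agent.Q126.FD

open Pool.Agent.Q126.TD (pol pol_coeff pol_injective natDegree_pol_le coeff_pol map_pol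
  not_root_of_irr irreducible_of_map notNorm_of_factor)

section full

variable {𝔽 : Type} [Field 𝔽] [Finite 𝔽] {κ : Type} [Fintype κ]

/-- almost all vectors of polynomials -/
def Full (S : Set (κ → 𝔽[X])) : Prop :=
  Tendsto (fun D : ℕ => ((Box 𝔽 κ D ∩ S).ncard : ℝ) / (Box 𝔽 κ D).ncard) atTop (𝓝 1)

theorem full_iff (S : Set (κ → 𝔽[X])) : Full S ↔
    Tendsto (fun D : ℕ => ((Box 𝔽 κ D ∩ Sᶜ).ncard : ℝ) / (Box 𝔽 κ D).ncard) atTop (𝓝 0) := by
  have h : ∀ D : ℕ, ((Box 𝔽 κ D ∩ S).ncard : ℝ) / (Box 𝔽 κ D).ncard =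
      1 - ((Box 𝔽 κ D ∩ Sᶜ).ncard : ℝ) / (Box 𝔽 κ D).ncard := by
    intro D
    have h1 := Set.ncard_inter_add_ncard_diff_eq_ncard (Box 𝔽 κ D) S (box_finite D)
    have h2 : ((Box 𝔽 κ D).ncard : ℝ) ≠ 0 := by
      exact_mod_cast (ncard_box_pos (𝔽 := 𝔽) (κ := κ) D).ne'
    have h3 : ((Box 𝔽 κ D ∩ S).ncard : ℝ) + (Box 𝔽 κ D ∩ Sᶜ).ncard = (Box 𝔽 κ D).ncard := by
      rw [← Set.diff_eq]
      exact_mod_cast h1
    rw [eq_sub_iff_add_eq, ← add_div, h3, div_self h2]
  unfold Full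
  simp only [h]
  constructor
  · intro h1
    have h2 := h1.const_sub 1
    simpa using h2
  · intro h1
    have h2 := h1.const_sub 1
    simpa using h2

theorem Full.mono {S S' : Set (κ → 𝔽[X])} (h : Full S) (hS : S ⊆ S') : Full S' := by
  rw [full_iff] at h ⊢
  refine squeeze_zero (fun H => by positivity) (fun H => ?_) h
  apply div_le_div_of_nonneg_right _ (by positivity)
  exact_mod_cast Set.ncard_le_ncard (Set.inter_subset_inter_right _ (Set.compl_subset_compl.2 hS))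
    ((box_finite H).subset Set.inter_subset_left)

theorem Full.inter {S S' : Set (κ → 𝔽[X])} (h : Full S) (h' : Full S') : Full (S ∩ S') := by
  rw [full_iff] at h h' ⊢
  have h2 := h.add h'
  rw [add_zero] at h2
  refine squeeze_zero (fun H => by positivity) (fun H => ?_) h2
  rw [← add_div]
  apply div_le_div_of_nonneg_right _ (by positivity)
  have h3 : Box 𝔽 κ H ∩ (S ∩ S')ᶜ ⊆ (Box 𝔽 κ H ∩ Sᶜ) ∪ (Box 𝔽 κ H ∩ S'ᶜ) := by
    rw [← Set.inter_union_distrib_left, Set.compl_inter]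
  have h4 := Set.ncard_le_ncard h3 (((box_finite H).subset Set.inter_subset_left).union
    ((box_finite H).subset Set.inter_subset_left))
  exact_mod_cast h4.trans (Set.ncard_union_le _ _)

/-- the places of large degree of the field `k` -/
def Places (𝔽 k : Type) [Field 𝔽] [Finite 𝔽] [Field k] [Algebra 𝔽[X] k] (M : ℕ) : Set 𝔽[X] :=
  {π | π.Monic ∧ Irreducible π ∧ M ≤ π.natDegree ∧ HasPlace k π}

/-- the field `k` has infinitely many places of large degree -/
def Rich (𝔽 k : Type) [Field 𝔽] [Finite 𝔽] [Field k] [Algebra 𝔽[X] k] : Prop :=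
  ∀ M, (Places 𝔽 k M).Infinite

theorem rich_fraction (k : Type) [Field k] [Algebra 𝔽[X] k] [IsFractionRing 𝔽[X] k] :
    Rich 𝔽 k := fun M => (infinite_irr (𝔽 := 𝔽) M).mono fun π h =>
      ⟨h.1, h.2.1, h.2.2, hasPlace_fraction k π⟩

theorem card_res {π : 𝔽[X]} (hm : π.Monic) :
    π.natDegree ≤ Nat.card (𝔽[X] ⧸ Ideal.span {π}) := by
  have h1 : Nat.card (AdjoinRoot π) = Nat.card 𝔽 ^ π.natDegree := by
    haveI : Module.Finite 𝔽 (AdjoinRoot π) := hm.finite_adjoinRoot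
    haveI : Module.Free 𝔽 (AdjoinRoot π) := hm.free_adjoinRoot
    rw [Module.natCard_eq_pow_finrank (K := 𝔽)]
    congr 1
    rw [(AdjoinRoot.powerBasis' hm).finrank, AdjoinRoot.powerBasis'_dim]
  change π.natDegree ≤ Nat.card (AdjoinRoot π)
  rw [h1]
  have h2 : 1 < Nat.card 𝔽 := Finite.one_lt_card
  exact (Nat.lt_pow_self h2).le

/-- **Sets which contain a positive proportion of the residues at infinitely many places.** -/
theorem full_of_places {k : Type} [Field k] [Algebra 𝔽[X] k] (hk : Rich 𝔽 k) (M : ℕ) {δ : ℝ}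
    (hδ0 : 0 < δ) (S : Set (κ → 𝔽[X]))
    (T : ∀ (E : Type) [Field E], (𝔽[X] →+* E) → Set (κ → E))
    (hT : ∀ (E : Type) [Field E] [Finite E] (ρ : 𝔽[X] →+* E), (ringChar E = ringChar 𝔽) →
      M ≤ Nat.card E → δ * (Nat.card E : ℝ) ^ Fintype.card κ ≤ (T E ρ).ncard)
    (hS : ∀ (E O L : Type) [Field E] [Finite E] [CommRing O] [IsDomain O] [IsIntegrallyClosed O]
      [Field L] [Algebra O L] [IsFractionRing O L] (ρ : 𝔽[X] →+* E) (ρ' : O →+* E)
      (ι : 𝔽[X] →+* O) (φ : k →+* L), Hens ρ' → (∀ f, ρ' (ι f) = ρ f) →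
      (∀ f, φ (algebraMap 𝔽[X] k f) = algebraMap O L (ι f)) → ∀ v : κ → 𝔽[X],
        (fun i => ρ (v i)) ∈ T E ρ → v ∈ S) : Full S := by
  classical
  have hchar : ∀ π : 𝔽[X], ∀ _ : Field (𝔽[X] ⧸ Ideal.span {π}), True := fun _ _ => trivial
  let G : ∀ π : 𝔽[X], Set (κ → 𝔽[X] ⧸ Ideal.span {π}) := fun π =>
    if h : (Ideal.span {π} : Ideal 𝔽[X]).IsMaximal then
      letI : Field (𝔽[X] ⧸ Ideal.span {π}) := Ideal.Quotient.field _
      T (𝔽[X] ⧸ Ideal.span {π}) (Ideal.Quotient.mk _)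
    else ∅
  have hG : ∀ π : 𝔽[X], π.Monic → Irreducible π → M ≤ π.natDegree →
      δ * Nat.card (κ → 𝔽[X] ⧸ Ideal.span {π}) ≤ (G π).ncard := by
    intro π hm hi hd
    have hmax : (Ideal.span {π} : Ideal 𝔽[X]).IsMaximal :=
      PrincipalIdealRing.isMaximal_of_irreducible hi
    letI : Field (𝔽[X] ⧸ Ideal.span {π}) := Ideal.Quotient.field _
    haveI : Finite (𝔽[X] ⧸ Ideal.span {π}) := finite_res hm
    have h1 : ringChar (𝔽[X] ⧸ Ideal.span {π}) = ringChar 𝔽 := by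
      haveI : CharP 𝔽 (ringChar 𝔽) := ringChar.charP 𝔽
      haveI : CharP (𝔽[X] ⧸ Ideal.span {π}) (ringChar 𝔽) :=
        charP_of_injective_ringHom (f := ((Ideal.Quotient.mk (Ideal.span {π})).comp C))
          (RingHom.injective _) _
      exact ringChar.eq_iff.2 inferInstance
    have h2 := hT (𝔽[X] ⧸ Ideal.span {π}) (Ideal.Quotient.mk _) h1 (hd.trans (card_res hm))
    have h3 : G π = T (𝔽[X] ⧸ Ideal.span {π}) (Ideal.Quotient.mk _) := dif_pos hmax
    rw [h3, Nat.card_fun, Nat.card_eq_fintype_card (α := κ)]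
    push_cast
    exact h2
  have hδ : δ ≤ 1 := by
    obtain ⟨π, hm, hi, hd, -⟩ := (hk M).nonempty
    haveI : Finite (𝔽[X] ⧸ Ideal.span {π}) := finite_res hm
    have h1 := hG π hm hi hd
    have h2 : ((G π).ncard : ℝ) ≤ Nat.card (κ → 𝔽[X] ⧸ Ideal.span {π}) := by
      exact_mod_cast Set.ncard_le_card _
    have h3 : (0 : ℝ) < Nat.card (κ → 𝔽[X] ⧸ Ideal.span {π}) := by
      haveI : Nonempty (κ → 𝔽[X] ⧸ Ideal.span {π}) := ⟨fun _ => 0⟩
      exact_mod_cast Nat.card_pos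
    by_contra h4
    push Not at h4
    have := mul_lt_mul_of_pos_right h4 h3
    linarith
  refine density (hk M) (fun π h => ⟨h.1, h.2.1⟩) hδ0 hδ (G := G)
    (fun π h => hG π h.1 h.2.1 h.2.2.1) ?_
  rintro v π ⟨hm, hi, -, hpl⟩ hv
  have hmax : (Ideal.span {π} : Ideal 𝔽[X]).IsMaximal :=
    PrincipalIdealRing.isMaximal_of_irreducible hi
  letI : Field (𝔽[X] ⧸ Ideal.span {π}) := Ideal.Quotient.field _
  haveI : Finite (𝔽[X] ⧸ Ideal.span {π}) := finite_res hm
  obtain ⟨O, L, i1, i2, i3, i4, i5, i6, ρ', ι, φ, h1, h2, h3⟩ :=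
    hpl (𝔽[X] ⧸ Ideal.span {π}) (Ideal.Quotient.mk _) Ideal.Quotient.mk_surjective
      Ideal.mk_ker
  have h4 : G π = T (𝔽[X] ⧸ Ideal.span {π}) (Ideal.Quotient.mk _) := dif_pos hmax
  rw [h4] at hv
  exact hS (𝔽[X] ⧸ Ideal.span {π}) O L (Ideal.Quotient.mk _) ρ' ι φ h1 h2 h3 v hv

end full

section uniform

variable {κ : Type} [Fintype κ]

/-- The map `q` has fibres of the same size. -/
def Uniform (E : Type) {m : ℕ} (q : (κ → E) → (Fin (m + 1) → E)) : Prop :=
  ∃ (A : Type) (e : (κ → E) ≃ A × (Fin (m + 1) → E)), ∀ w, (e w).2 = q w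

theorem Uniform.count {E : Type} [Field E] [Finite E] {m : ℕ} {q : (κ → E) → (Fin (m + 1) → E)}
    (h : Uniform E q) {G : Set (Fin (m + 1) → E)} {c : ℝ}
    (hG : c * (Nat.card E : ℝ) ^ (m + 1) ≤ G.ncard) :
    c * (Nat.card E : ℝ) ^ Fintype.card κ ≤ ({w | q w ∈ G} : Set (κ → E)).ncard := by
  classical
  obtain ⟨A, e, he⟩ := h
  have hA : Finite A := by
    have h1 : Finite (A × (Fin (m + 1) → E)) := Finite.of_equiv _ e
    exact Finite.of_surjective (Prod.fst : A × (Fin (m + 1) → E) → A) Prod.fst_surjective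
  have h1 : Nat.card A * Nat.card E ^ (m + 1) = Nat.card E ^ Fintype.card κ := by
    have h2 := Nat.card_congr e
    rw [Nat.card_prod, Nat.card_fun, Nat.card_fun, Nat.card_eq_fintype_card (α := κ),
      Nat.card_eq_fintype_card (α := Fin (m + 1)), Fintype.card_fin] at h2
    exact h2.symm
  have h2 : ({w | q w ∈ G} : Set (κ → E)).ncard = Nat.card A * G.ncard := by
    have h3 : e '' {w | q w ∈ G} = Set.univ ×ˢ G := by
      ext x
      constructor
      · rintro ⟨w, hw, rfl⟩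
        refine ⟨trivial, ?_⟩
        rw [he]
        exact hw
      · rintro ⟨-, hx⟩
        refine ⟨e.symm x, ?_, e.apply_symm_apply x⟩
        show q (e.symm x) ∈ G
        rw [← he, e.apply_symm_apply]
        exact hx
    rw [← Set.ncard_image_of_injective _ e.injective, h3, Set.ncard_prod, Set.ncard_univ]
  rw [h2]
  have h3 : (Nat.card A : ℝ) * (Nat.card E : ℝ) ^ (m + 1) = (Nat.card E : ℝ) ^ Fintype.card κ := by
    exact_mod_cast h1
  push_cast
  rw [← h3]
  have h4 := mul_le_mul_of_nonneg_left hG (Nat.cast_nonneg (α := ℝ) (Nat.card A))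
  linarith

/-- The condition on a family: its members are polynomials of degree at most `m`, and the residues
of the coefficients are equidistributed. -/
def Equidistributed (𝔽 : Type) [Field 𝔽] (m : ℕ) (Q : (κ → 𝔽[X]) → 𝔽[X][X]) : Prop :=
  (∀ v, (Q v).natDegree ≤ m) ∧
    ∃ q : ∀ (E : Type) [Field E], (𝔽[X] →+* E) → (κ → E) → (Fin (m + 1) → E),
      ∀ (E : Type) [Field E] (ρ : 𝔽[X] →+* E), ringChar E = ringChar 𝔽 → Uniform E (q E ρ) ∧
        ∀ v : κ → 𝔽[X], (Q v).map ρ = pol (q E ρ fun i => ρ (v i))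

variable {𝔽 : Type} [Field 𝔽] [Finite 𝔽] {k : Type} [Field k] [Algebra 𝔽[X] k]

theorem map_res {E O : Type} [Field E] [CommRing O] {ρ : 𝔽[X] →+* E} {ρ' : O →+* E}
    {ι : 𝔽[X] →+* O} (h : ∀ f, ρ' (ι f) = ρ f) (f : 𝔽[X][X]) : (f.map ι).map ρ' = f.map ρ := by
  rw [Polynomial.map_map]
  congr 1
  exact RingHom.ext h

theorem map_emb {O L : Type} [CommRing O] [Field L] [Algebra O L] {ι : 𝔽[X] →+* O} {φ : k →+* L}
    (h : ∀ f, φ (algebraMap 𝔽[X] k f) = algebraMap O L (ι f)) (f : 𝔽[X][X]) :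
    (f.map ι).map (algebraMap O L) = (f.map (algebraMap 𝔽[X] k)).map φ := by
  rw [Polynomial.map_map, Polynomial.map_map]
  congr 1
  exact RingHom.ext fun x => (h x).symm

theorem degree_of_red {E O : Type} [Field E] [CommRing O] {ρ : 𝔽[X] →+* E} {ρ' : O →+* E}
    {ι : 𝔽[X] →+* O} (h : ∀ f, ρ' (ι f) = ρ f) {f : 𝔽[X][X]} {m : ℕ} (hf : f.natDegree ≤ m)
    (hm : (f.map ρ).natDegree = m) : (f.map ι).natDegree = m := by
  apply le_antisymm
  · exact natDegree_map_le.trans hf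
  · rw [← hm, ← map_res h]
    exact natDegree_map_le

theorem ringChar_ρ {E : Type} [Field E] (ρ : 𝔽[X] →+* E) : ringChar E = ringChar 𝔽 := by
  haveI : CharP 𝔽 (ringChar 𝔽) := ringChar.charP 𝔽
  haveI : CharP E (ringChar 𝔽) := charP_of_injective_ringHom (f := ρ.comp C)
    (RingHom.injective _) _
  exact ringChar.eq_iff.2 inferInstance

/-- **Almost all members are irreducible.** -/
theorem irr_full (hk : Rich 𝔽 k) {m : ℕ} (hm : 0 < m) {Q : (κ → 𝔽[X]) → 𝔽[X][X]}
    (hQ : Equidistributed 𝔽 m Q) :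
    Full {v | Irreducible ((Q v).map (algebraMap 𝔽[X] k)) ∧
      ((Q v).map (algebraMap 𝔽[X] k)).Separable ∧
      ((Q v).map (algebraMap 𝔽[X] k)).natDegree = m} := by
  obtain ⟨hQ1, q, hq⟩ := hQ
  refine full_of_places hk (2 * m + 2) (δ := 1 / (4 * m : ℝ)) (by positivity) _
    (fun E _ ρ => {w | q E ρ w ∈ IrrV E m})
    (fun E _ _ ρ hE hc => (hq E ρ hE).1.count (count1 hm hc)) ?_
  intro E O L _ _ _ _ _ _ _ _ ρ ρ' ι φ hH hρ hφ v hv
  obtain ⟨h1, h2⟩ := hv
  rw [← (hq E ρ (ringChar_ρ ρ)).2] at h1 h2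
  have h3 := degree_of_red hρ (hQ1 v) h1
  have h4 := hH.irr_of_red (L := L) (f := (Q v).map ι) (by rw [map_res hρ, h1, h3])
    (by rw [map_res hρ]; exact h2)
  rw [map_emb hφ] at h4
  have h5 := irreducible_of_map φ h4
  refine ⟨h5, (separable_iff_derivative_ne_zero h5).2 fun h0 => ?_, ?_⟩
  · have h6 := (separable_iff_derivative_ne_zero h2).1 (PerfectField.separable_of_irreducible h2)
    apply h6
    have h7 : (derivative ((Q v).map ι)).map (algebraMap O L) = 0 := by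
      rw [← derivative_map, map_emb hφ, derivative_map, h0, Polynomial.map_zero]
    have h8 : derivative ((Q v).map ι) = 0 :=
      (Polynomial.map_eq_zero_iff (IsFractionRing.injective O L)).1 h7
    rw [← map_res hρ, derivative_map, h8, Polynomial.map_zero]
  · rw [← natDegree_map φ, ← map_emb hφ,
      natDegree_map_eq_of_injective (IsFractionRing.injective O L), h3]

/-- **Almost all members are not norms.** -/
theorem notNorm_full (hk : Rich 𝔽 k) {m : ℕ} (hm : 2 ≤ m) {Q : (κ → 𝔽[X]) → 𝔽[X][X]}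
    (hQ : Equidistributed 𝔽 (m + 1) Q) :
    Full {v | NotNorm ((Q v).map (algebraMap 𝔽[X] k))} := by
  obtain ⟨hQ1, q, hq⟩ := hQ
  refine full_of_places hk (2 * m + 2) (δ := 1 / (4 * m : ℝ)) (by positivity) _
    (fun E _ ρ => {w | q E ρ w ∈ FacV E m})
    (fun E _ _ ρ hE hc => (hq E ρ hE).1.count (count2 hm hc)) ?_
  intro E O L _ _ _ _ _ _ _ _ ρ ρ' ι φ hH hρ hφ v hv
  obtain ⟨α, g, h1, h2, h3⟩ := hv
  rw [← (hq E ρ (ringChar_ρ ρ)).2] at h3
  have hd : ((Q v).map ρ).natDegree = m + 1 := by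
    rw [h3, natDegree_mul (X_sub_C_ne_zero α) h2.ne_zero, natDegree_X_sub_C, h1]
    omega
  have h4 := degree_of_red hρ (hQ1 v) hd
  obtain ⟨z, G, h5, h6, h7⟩ := hH.factor_of_red (L := L) (f := (Q v).map ι) h2
    (by rw [h1]; exact hm) (by rw [map_res hρ]; exact h3) (by rw [h4, h1])
  rw [map_emb hφ] at h7
  exact notNorm_of_factor φ h5 (by rw [h6, h1]; exact hm) h7

/-- **Almost all pairs `(a, b)`: no constant multiple of `b` is a square modulo `a`.** -/
theorem sq_full (hk : Rich 𝔽 k) (h2 : (2 : 𝔽) ≠ 0) {N : ℕ} (hN : 2 ≤ N) :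
    Full {v : Fin (N + 2 + 1) ⊕ Fin (N + 2 + 1) → 𝔽[X] | ∀ c : k, c ≠ 0 →
      ¬ SqMod ((pol fun i => v (Sum.inl i)).map (algebraMap 𝔽[X] k))
        (C c * (pol fun i => v (Sum.inr i)).map (algebraMap 𝔽[X] k))} := by
  have hchar : ringChar 𝔽 ≠ 2 := by
    intro h
    apply h2
    haveI : CharP 𝔽 2 := h ▸ ringChar.charP 𝔽
    exact_mod_cast CharP.cast_eq_zero 𝔽 2
  have hN0 : (0 : ℝ) < N := by exact_mod_cast (by omega : 0 < N)
  refine full_of_places hk (2 * N + 2) (δ := 1 / (128 * N : ℝ)) (by positivity) _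
    (fun E _ _ => SqGood E N) (fun E _ _ _ hE hc => count3 (by rw [hE]; exact hchar) hN hc) ?_
  intro E O L _ _ _ _ _ _ _ _ ρ ρ' ι φ hH hρ hφ v hv
  obtain ⟨α, β, g, hαβ, hg, hg2, ha, hb⟩ := hv
  intro c hc
  rintro ⟨z, hz⟩
  set a := pol fun i => v (Sum.inl i) with ha'
  set b := pol fun i => v (Sum.inr i) with hb'
  have ea : a.map ρ = (X - C α) * ((X - C β) * g) := by
    rw [ha', map_pol]
    exact ha
  have eb : b.map ρ = pol fun i => ρ (v (Sum.inr i)) := map_pol _ _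
  rw [← eb] at hb
  have nr := not_root_of_irr hg (by rw [hg2]; exact hN)
  have dE : (a.map ρ).natDegree = N + 2 := by
    rw [ea, natDegree_mul (X_sub_C_ne_zero α) (mul_ne_zero (X_sub_C_ne_zero β) hg.ne_zero),
      natDegree_mul (X_sub_C_ne_zero β) hg.ne_zero, natDegree_X_sub_C, natDegree_X_sub_C, hg2]
    omega
  have dO : (a.map ι).natDegree = N + 2 := degree_of_red hρ (natDegree_pol_le _) dE
  obtain ⟨x, hx1, hx2⟩ := hH.root_lift (f := a.map ι) (α := α) (g := (X - C β) * g)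
    (by rw [map_res hρ, dE, dO]) (by rw [map_res hρ, ea]) (by
      rw [eval_mul, eval_sub, eval_X, eval_C]
      exact mul_ne_zero (sub_ne_zero.2 hαβ) (nr α))
  obtain ⟨y, hy1, hy2⟩ := hH.root_lift (f := a.map ι) (α := β) (g := (X - C α) * g)
    (by rw [map_res hρ, dE, dO]) (by rw [map_res hρ, ea]; ring) (by
      rw [eval_mul, eval_sub, eval_X, eval_C]
      exact mul_ne_zero (sub_ne_zero.2 (Ne.symm hαβ)) (nr β))
  apply hb
  have root : ∀ s : O, (a.map ι).eval s = 0 →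
      ((z.map φ).eval (algebraMap O L s)) ^ 2 = φ c * algebraMap O L ((b.map ι).eval s) := by
    intro s hs
    have h1 : ((a.map (algebraMap 𝔽[X] k)).map φ).eval (algebraMap O L s) = 0 := by
      rw [← map_emb hφ, Polynomial.eval_map_apply, hs, map_zero]
    have h2 := eval_dvd (x := algebraMap O L s) (Polynomial.map_dvd φ hz)
    rw [h1, zero_dvd_iff, Polynomial.map_sub, Polynomial.map_mul, Polynomial.map_pow, map_C,
      eval_sub, eval_mul, eval_pow, eval_C, ← map_emb hφ, Polynomial.eval_map_apply] at h2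
    exact sub_eq_zero.1 h2
  have r1 := root x hx1
  have r2 := root y hy1
  have hφc : φ c ≠ 0 := (map_ne_zero φ).2 hc
  have h3 : IsSquare (algebraMap O L ((b.map ι).eval x * (b.map ι).eval y)) := by
    refine ⟨(z.map φ).eval (algebraMap O L x) * (z.map φ).eval (algebraMap O L y) / φ c, ?_⟩
    rw [map_mul]
    field_simp
    linear_combination
      (-(φ c * algebraMap O L ((b.map ι).eval y))) * r1 -
      ((z.map φ).eval (algebraMap O L x)) ^ 2 * r2
  have h4 := hH.sq_red h3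
  rw [map_mul, ← Polynomial.eval_map_apply, ← Polynomial.eval_map_apply, map_res hρ, hx2, hy2] at h4
  exact h4

end uniform

end Pool.Agent.Q126.FD
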