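import Pool.Agent.Q126.FD.Full

/-!
Pairs of polynomials over `𝔽[u]`: densities, and equidistributed families.
-/

set_option autoImplicit false
set_option linter.all false

open Polynomial Filter Topology

namespace Pool.Agent.Q126.FD

open Pool.Agent.Q126.TD (pol pol_coeff pol_injective natDegree_pol_le coeff_pol map_pol)

section pairs

variable {𝔽 : Type} [Field 𝔽] [Finite 𝔽]

/-- The polynomials of degree at most `n` in `t` whose coefficients have degree less than `D` in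
`u`. -/
def polys (𝔽 : Type) [Field 𝔽] (n D : ℕ) : Set 𝔽[X][X] :=
  {f | f.natDegree ≤ n ∧ ∀ i, f.coeff i ∈ degreeLT 𝔽 D}

/-- The pairs of such polynomials. -/
def pairs (𝔽 : Type) [Field 𝔽] (n m D : ℕ) : Set (𝔽[X][X] × 𝔽[X][X]) :=
  {x | x.1 ∈ polys 𝔽 n D ∧ x.2 ∈ polys 𝔽 m D}

theorem pol_mem {n D : ℕ} {v : Fin (n + 1) → 𝔽[X]} (hv : ∀ i, v i ∈ degreeLT 𝔽 D) :
    pol v ∈ polys 𝔽 n D := by
  refine ⟨natDegree_pol_le v, fun i => ?_⟩
  by_cases hi : i < n + 1
  · have h := coeff_pol v ⟨i, hi⟩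
    change (pol v).coeff i = _ at h
    rw [h]
    exact hv _
  · rw [coeff_eq_zero_of_natDegree_lt (by have := natDegree_pol_le v; omega)]
    exact Submodule.zero_mem _

theorem image_pairs (n m D : ℕ) (S : Set (𝔽[X][X] × 𝔽[X][X])) :
    (fun v : Fin (n + 1) ⊕ Fin (m + 1) → 𝔽[X] =>
      ((pol fun i => v (Sum.inl i)), (pol fun i => v (Sum.inr i)))) ''
        (Box 𝔽 (Fin (n + 1) ⊕ Fin (m + 1)) D ∩
          {v | ((pol fun i => v (Sum.inl i)), (pol fun i => v (Sum.inr i))) ∈ S}) =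
      pairs 𝔽 n m D ∩ S := by
  ext x
  constructor
  · rintro ⟨v, ⟨hv, hS⟩, rfl⟩
    exact ⟨⟨pol_mem fun i => hv _, pol_mem fun i => hv _⟩, hS⟩
  · rintro ⟨⟨h1, h2⟩, hS⟩
    have e1 : (pol fun i : Fin (n + 1) => x.1.coeff i) = x.1 := pol_coeff h1.1
    have e2 : (pol fun i : Fin (m + 1) => x.2.coeff i) = x.2 := pol_coeff h2.1
    refine ⟨Sum.elim (fun i : Fin (n + 1) => x.1.coeff i) (fun i : Fin (m + 1) => x.2.coeff i),
      ⟨?_, ?_⟩, ?_⟩
    · rintro (i | i)
      · exact h1.2 _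
      · exact h2.2 _
    · change ((pol fun i : Fin (n + 1) => x.1.coeff i), (pol fun i : Fin (m + 1) => x.2.coeff i)) ∈ S
      rw [e1, e2]
      exact hS
    · change ((pol fun i : Fin (n + 1) => x.1.coeff i), (pol fun i : Fin (m + 1) => x.2.coeff i)) = x
      rw [e1, e2]

theorem inj_pairs (n m : ℕ) : Function.Injective (fun v : Fin (n + 1) ⊕ Fin (m + 1) → 𝔽[X] =>
    ((pol fun i => v (Sum.inl i)), (pol fun i => v (Sum.inr i)))) := by
  intro v w h
  have h1 := pol_injective (congrArg Prod.fst h)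
  have h2 := pol_injective (congrArg Prod.snd h)
  funext i
  rcases i with i | i
  · exact congrFun h1 i
  · exact congrFun h2 i

theorem ncard_pairs (n m D : ℕ) (S : Set (𝔽[X][X] × 𝔽[X][X])) : (pairs 𝔽 n m D ∩ S).ncard =
    (Box 𝔽 (Fin (n + 1) ⊕ Fin (m + 1)) D ∩
      {v | ((pol fun i => v (Sum.inl i)), (pol fun i => v (Sum.inr i))) ∈ S}).ncard := by
  rw [← image_pairs, Set.ncard_image_of_injective _ (inj_pairs n m)]

theorem tendsto_pairs {n m : ℕ} {S : Set (𝔽[X][X] × 𝔽[X][X])}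
    (h : Full {v : Fin (n + 1) ⊕ Fin (m + 1) → 𝔽[X] |
      ((pol fun i => v (Sum.inl i)), (pol fun i => v (Sum.inr i))) ∈ S}) :
    Tendsto (fun D : ℕ => ((pairs 𝔽 n m D ∩ S).ncard : ℝ) / (pairs 𝔽 n m D).ncard) atTop (𝓝 1) := by
  refine h.congr fun D => ?_
  rw [ncard_pairs]
  congr 2
  have h2 := ncard_pairs (𝔽 := 𝔽) n m D Set.univ
  rw [Set.inter_univ] at h2
  rw [h2]
  congr 1
  ext v
  simp

theorem image_polys (n D : ℕ) (S : Set 𝔽[X][X]) :
    (fun v : Fin (n + 1) → 𝔽[X] => pol v) '' (Box 𝔽 (Fin (n + 1)) D ∩ {v | pol v ∈ S}) =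
      polys 𝔽 n D ∩ S := by
  ext x
  constructor
  · rintro ⟨v, ⟨hv, hS⟩, rfl⟩
    exact ⟨pol_mem fun i => hv _, hS⟩
  · rintro ⟨h1, hS⟩
    have e1 : (pol fun i : Fin (n + 1) => x.coeff i) = x := pol_coeff h1.1
    refine ⟨fun i : Fin (n + 1) => x.coeff i, ⟨fun i => h1.2 _, ?_⟩, e1⟩
    change (pol fun i : Fin (n + 1) => x.coeff i) ∈ S
    rw [e1]
    exact hS

theorem ncard_polys (n D : ℕ) (S : Set 𝔽[X][X]) : (polys 𝔽 n D ∩ S).ncard =
    (Box 𝔽 (Fin (n + 1)) D ∩ {v | pol v ∈ S}).ncard := by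
  rw [← image_polys, Set.ncard_image_of_injective _ pol_injective]

theorem tendsto_polys {n : ℕ} {S : Set 𝔽[X][X]} (h : Full {v : Fin (n + 1) → 𝔽[X] | pol v ∈ S}) :
    Tendsto (fun D : ℕ => ((polys 𝔽 n D ∩ S).ncard : ℝ) / (polys 𝔽 n D).ncard) atTop (𝓝 1) := by
  refine h.congr fun D => ?_
  rw [ncard_polys]
  congr 2
  have h2 := ncard_polys (𝔽 := 𝔽) n D Set.univ
  rw [Set.inter_univ] at h2
  rw [h2]
  congr 1
  ext v
  simp

end pairs

theorem full_univ {𝔽 : Type} [Field 𝔽] [Finite 𝔽] {κ : Type} [Fintype κ] :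
    Full (Set.univ : Set (κ → 𝔽[X])) := by
  refine Tendsto.congr (fun D => ?_) tendsto_const_nhds
  rw [Set.inter_univ, div_self]
  exact_mod_cast (ncard_box_pos (𝔽 := 𝔽) (κ := κ) D).ne'

theorem Full.all {𝔽 : Type} [Field 𝔽] [Finite 𝔽] {κ : Type} [Fintype κ] {ι : Type} [Finite ι]
    {S : ι → Set (κ → 𝔽[X])} (h : ∀ i, Full (S i)) : Full (⋂ i, S i) := by
  classical
  haveI : Fintype ι := Fintype.ofFinite ι
  have h1 : ∀ T : Finset ι, Full (⋂ i ∈ T, S i) := by
    intro T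
    induction T using Finset.induction_on with
    | empty =>
      simp only [Finset.notMem_empty, Set.iInter_of_empty, Set.iInter_univ]
      exact full_univ
    | insert i T _ ih =>
      rw [Finset.set_biInter_insert]
      exact (h i).inter ih
  have h2 := h1 Finset.univ
  simpa using h2

section inst

variable {𝔽 : Type} [Field 𝔽] {n m : ℕ}

theorem equi_inr : Equidistributed 𝔽 m (fun v : Fin (n + 1) ⊕ Fin (m + 1) → 𝔽[X] =>
    pol fun i => v (Sum.inr i)) := by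
  refine ⟨fun v => natDegree_pol_le _, fun E _ _ w i => w (Sum.inr i), fun E _ ρ _ => ⟨?_, ?_⟩⟩
  · exact ⟨Fin (n + 1) → E, Equiv.sumArrowEquivProdArrow _ _ _, fun w => rfl⟩
  · intro v
    rw [map_pol]

theorem equi_inl : Equidistributed 𝔽 n (fun v : Fin (n + 1) ⊕ Fin (m + 1) → 𝔽[X] =>
    pol fun i => v (Sum.inl i)) := by
  refine ⟨fun v => natDegree_pol_le _, fun E _ _ w i => w (Sum.inl i), fun E _ ρ _ => ⟨?_, ?_⟩⟩
  · exact ⟨Fin (m + 1) → E, (Equiv.sumArrowEquivProdArrow _ _ _).trans (Equiv.prodComm _ _),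
      fun w => rfl⟩
  · intro v
    rw [map_pol]

theorem equi_self : Equidistributed 𝔽 n (fun v : Fin (n + 1) → 𝔽[X] => pol v) := by
  refine ⟨fun v => natDegree_pol_le _, fun E _ _ w => w, fun E _ ρ _ => ⟨?_, ?_⟩⟩
  · exact ⟨Unit, (Equiv.punitProd _).symm, fun w => rfl⟩
  · intro v
    rw [map_pol]

theorem equi_const (e : 𝔽[X]) : Equidistributed 𝔽 n (fun v : Fin (n + 1) → 𝔽[X] => pol v - C e) := by
  classical
  refine ⟨fun v => ?_, fun E _ ρ w i => w i - if (i : ℕ) = 0 then ρ e else 0,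
    fun E _ ρ _ => ⟨?_, ?_⟩⟩
  · rw [natDegree_sub_C]
    exact natDegree_pol_le _
  · refine ⟨Unit, (Equiv.subRight fun i : Fin (n + 1) => if (i : ℕ) = 0 then ρ e else 0).trans
      (Equiv.punitProd _).symm, fun w => rfl⟩
  · intro v
    rw [Polynomial.map_sub, map_pol, map_C]
    have h : (C (ρ e) : E[X]) = pol (n := n) fun i : Fin (n + 1) =>
        if (i : ℕ) = 0 then ρ e else 0 := by
      have h1 := pol_coeff (n := n) (f := C (ρ e)) (by rw [natDegree_C]; exact Nat.zero_le _)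
      rw [← h1]
      congr 1
      funext i
      rw [coeff_C]
    rw [h]
    unfold pol
    rw [← Finset.sum_sub_distrib]
    refine Finset.sum_congr rfl fun i _ => ?_
    rw [C_sub, sub_mul]

/-- The translation of the vectors in a fibre. -/
def shear (E : Type) [Field E] (hp : (4 : E) * (4 : E)⁻¹ = 1)
    (s : (Fin (n + 1) → E) → (Fin (m + 1) → E)) :
    (Fin (n + 1) → E) × (Fin (m + 1) → E) ≃ (Fin (n + 1) → E) × (Fin (m + 1) → E) where
  toFun x := (x.1, fun i => s x.1 i - 4 * x.2 i)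
  invFun x := (x.1, fun i => (4 : E)⁻¹ * (s x.1 i - x.2 i))
  left_inv x := by
    refine Prod.ext rfl ?_
    funext i
    show (4 : E)⁻¹ * (s x.1 i - (s x.1 i - 4 * x.2 i)) = x.2 i
    linear_combination (x.2 i) * hp
  right_inv x := by
    refine Prod.ext rfl ?_
    funext i
    show s x.1 i - 4 * ((4 : E)⁻¹ * (s x.1 i - x.2 i)) = x.2 i
    linear_combination (-(s x.1 i - x.2 i)) * hp

theorem four_ne {E : Type} [Field E] (h2 : (2 : 𝔽) ≠ 0) (hE : ringChar E = ringChar 𝔽) :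
    (4 : E) ≠ 0 := by
  have h : (2 : E) ≠ 0 := by
    intro h0
    have h1 : ringChar 𝔽 ∣ 2 := by
      rw [← hE]
      apply (ringChar.spec E 2).1
      exact_mod_cast h0
    apply h2
    have := (ringChar.spec 𝔽 2).2 h1
    exact_mod_cast this
  have e : (4 : E) = 2 * 2 := by norm_num
  rw [e]
  exact mul_ne_zero h h

theorem equi_disc (h2 : (2 : 𝔽) ≠ 0) (hnm : 2 * n ≤ m) :
    Equidistributed 𝔽 m (fun v : Fin (n + 1) ⊕ Fin (m + 1) → 𝔽[X] =>
      (pol fun i => v (Sum.inl i)) ^ 2 - 4 * pol fun i => v (Sum.inr i)) := by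
  have hdeg : ∀ (R : Type) [CommRing R] (u : Fin (n + 1) → R), ((pol u) ^ 2).natDegree ≤ m := by
    intro R _ u
    refine natDegree_pow_le.trans ?_
    have := natDegree_pol_le u
    omega
  refine ⟨fun v => ?_, fun E _ _ w i => ((pol fun j => w (Sum.inl j)) ^ 2).coeff i -
      4 * w (Sum.inr i), fun E _ ρ hE => ⟨?_, ?_⟩⟩
  · refine (natDegree_sub_le _ _).trans (max_le (hdeg 𝔽[X] _) ?_)
    have h4 : (4 : 𝔽[X][X]) = C 4 := rfl
    rw [h4]
    exact (natDegree_C_mul_le _ _).trans (natDegree_pol_le _)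
  · let s : (Fin (n + 1) → E) → (Fin (m + 1) → E) := fun u i => ((pol u) ^ 2).coeff i
    exact ⟨Fin (n + 1) → E, (Equiv.sumArrowEquivProdArrow _ _ _).trans
        (shear E (mul_inv_cancel₀ (four_ne h2 hE)) s), fun w => rfl⟩
  · intro v
    rw [Polynomial.map_sub, Polynomial.map_mul, Polynomial.map_pow, map_pol, map_pol]
    have h5 : (pol fun i : Fin (n + 1) => ρ (v (Sum.inl i))) ^ 2 =
        pol (n := m) (fun i => ((pol fun j : Fin (n + 1) => ρ (v (Sum.inl j))) ^ 2).coeff i) :=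
      (pol_coeff (hdeg E _)).symm
    rw [h5]
    have h6 : (4 : 𝔽[X][X]).map ρ = C 4 := by
      rw [Polynomial.map_ofNat]
      rfl
    rw [h6]
    unfold pol
    rw [Finset.mul_sum, ← Finset.sum_sub_distrib]
    refine Finset.sum_congr rfl fun i _ => ?_
    rw [C_sub, C_mul]
    show _ - C 4 * (C (ρ (v (Sum.inr i))) * X ^ (i : ℕ)) = _
    ring

theorem equi_sub : Equidistributed 𝔽 n (fun v : Fin (n + 1) ⊕ Fin (n + 1) → 𝔽[X] =>
    (pol fun i => v (Sum.inl i)) - pol fun i => v (Sum.inr i)) := by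
  refine ⟨fun v => (natDegree_sub_le _ _).trans (max_le (natDegree_pol_le _) (natDegree_pol_le _)),
    fun E _ _ w i => w (Sum.inl i) - w (Sum.inr i), fun E _ ρ _ => ⟨?_, ?_⟩⟩
  · let e : (Fin (n + 1) → E) × (Fin (n + 1) → E) ≃ (Fin (n + 1) → E) × (Fin (n + 1) → E) :=
      { toFun := fun x => (x.1, x.1 - x.2)
        invFun := fun x => (x.1, x.1 - x.2)
        left_inv := fun x => by simp
        right_inv := fun x => by simp }
    exact ⟨Fin (n + 1) → E, (Equiv.sumArrowEquivProdArrow _ _ _).trans e, fun w => rfl⟩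
  · intro v
    rw [Polynomial.map_sub, map_pol, map_pol]
    unfold pol
    rw [← Finset.sum_sub_distrib]
    refine Finset.sum_congr rfl fun i _ => ?_
    rw [C_sub, sub_mul]

end inst

end Pool.Agent.Q126.FD
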