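import Pool.Agent.Q126.FD.Dens
import Pool.Agent.Q126.TD.Irr

/-!
Places with finite residue fields: henselian rings, irreducible polynomials and simple roots from
reductions, the completions of `𝔽(u)`.
-/

set_option autoImplicit false
set_option linter.all false

open Polynomial

namespace Pool.Agent.Q126.FD

open Pool.Agent.Q126.TD (irreducible_of_map not_root_of_irr notNorm_of_factor)

section hens

variable {O E L : Type} [CommRing O] [IsDomain O] [Field E]

/-- `O` is a henselian local ring with the residue map `ρ`. -/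
structure Hens (ρ : O →+* E) : Prop where
  surj : Function.Surjective ρ
  unit : ∀ x, ρ x ≠ 0 → IsUnit x
  lift : ∀ f : O[X], f.Monic → ∀ a : O, ρ (f.eval a) = 0 → ρ (f.derivative.eval a) ≠ 0 →
    ∃ z, f.eval z = 0 ∧ ρ z = ρ a

variable {ρ : O →+* E}

theorem Hens.lcUnit (h : Hens ρ) {f : O[X]} (hd : (f.map ρ).natDegree = f.natDegree)
    (h0 : f.map ρ ≠ 0) : IsUnit f.leadingCoeff := by
  apply h.unit
  intro h1
  apply h0
  have h2 : (f.map ρ).coeff (f.map ρ).natDegree = 0 := by
    rw [hd, coeff_map]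
    exact h1
  exact leadingCoeff_eq_zero.1 h2

theorem Hens.monicScale (h : Hens ρ) {f : O[X]} (hd : (f.map ρ).natDegree = f.natDegree)
    (h0 : f.map ρ ≠ 0) : ∃ c : Oˣ, (f * C (↑c⁻¹ : O)).Monic := by
  obtain ⟨c, hc⟩ := h.lcUnit hd h0
  refine ⟨c, ?_⟩
  have hcf : f.leadingCoeff * (↑c⁻¹ : O) = 1 := by rw [← hc]; exact c.mul_inv
  have h1 : f.leadingCoeff * (C (↑c⁻¹ : O) : O[X]).leadingCoeff ≠ 0 := by
    rw [leadingCoeff_C, hcf]
    exact one_ne_zero
  rw [Monic, leadingCoeff_mul' h1, leadingCoeff_C, hcf]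

theorem Hens.root_lift (h : Hens ρ) {f : O[X]} {α : E} {g : E[X]}
    (hd : (f.map ρ).natDegree = f.natDegree) (hf : f.map ρ = (X - C α) * g) (hg : g.eval α ≠ 0) :
    ∃ z : O, f.eval z = 0 ∧ ρ z = α := by
  have h0 : f.map ρ ≠ 0 := by
    rw [hf]
    intro h1
    rcases mul_eq_zero.1 h1 with h2 | h2
    · exact X_sub_C_ne_zero α h2
    · rw [h2, eval_zero] at hg
      exact hg rfl
  obtain ⟨c, hc⟩ := h.monicScale hd h0
  obtain ⟨a, ha⟩ := h.surj α
  have hcu : ρ (↑c⁻¹ : O) ≠ 0 := (c⁻¹.isUnit.map ρ).ne_zero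
  have hfa : ρ (f.eval a) = 0 := by
    rw [← Polynomial.eval_map_apply, ha, hf, eval_mul, eval_sub, eval_X, eval_C, sub_self, zero_mul]
  have hda : ρ (f.derivative.eval a) ≠ 0 := by
    rw [← Polynomial.eval_map_apply, ha, ← derivative_map, hf, derivative_mul, derivative_sub,
      derivative_X, derivative_C, eval_add, eval_mul, eval_mul, eval_sub, eval_sub, eval_X, eval_C,
      sub_self, zero_mul, add_zero]
    simpa using hg
  obtain ⟨z, hz1, hz2⟩ := h.lift _ hc a (by rw [eval_mul, map_mul, hfa, zero_mul]) (by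
    rw [derivative_mul, derivative_C, mul_zero, add_zero, eval_mul, eval_C, map_mul]
    exact mul_ne_zero hda hcu)
  refine ⟨z, ?_, hz2.trans ha⟩
  rw [eval_mul, eval_C] at hz1
  rcases mul_eq_zero.1 hz1 with h3 | h3
  · exact h3
  · exact absurd h3 c⁻¹.ne_zero

variable [IsIntegrallyClosed O] [Field L] [Algebra O L] [IsFractionRing O L]

/-- Irreducible reductions of the same degree. -/
theorem Hens.irr_of_red (h : Hens ρ) {f : O[X]} (hd : (f.map ρ).natDegree = f.natDegree)
    (hi : Irreducible (f.map ρ)) : Irreducible (f.map (algebraMap O L)) := by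
  obtain ⟨c, hgm⟩ := h.monicScale hd hi.ne_zero
  have hu : IsUnit (C (↑c⁻¹ : O) : O[X]) := isUnit_C.2 c⁻¹.isUnit
  have hgi : Irreducible ((f * C (↑c⁻¹ : O)).map ρ) := by
    rw [Polynomial.map_mul]
    exact (irreducible_mul_isUnit (hu.map (mapRingHom _))).2 hi
  have h1 := hgm.irreducible_of_irreducible_map _ _ hgi
  have h2 := (hgm.irreducible_iff_irreducible_map_fraction_map (K := L)).1 h1
  rw [Polynomial.map_mul] at h2
  exact (irreducible_mul_isUnit (hu.map (mapRingHom _))).1 h2

/-- Reductions with a simple root and an irreducible cofactor. -/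
theorem Hens.factor_of_red (h : Hens ρ) {f : O[X]} {α : E} {g : E[X]} (hg : Irreducible g)
    (hg2 : 2 ≤ g.natDegree) (hf : f.map ρ = (X - C α) * g) (hd : f.natDegree = g.natDegree + 1) :
    ∃ (z : L) (G : L[X]), Irreducible G ∧ G.natDegree = g.natDegree ∧
      f.map (algebraMap O L) = (X - C z) * G := by
  have hroot := not_root_of_irr hg hg2
  have hd' : (f.map ρ).natDegree = f.natDegree := by
    rw [hf, natDegree_mul (X_sub_C_ne_zero α) hg.ne_zero, natDegree_X_sub_C, hd]
    omega
  obtain ⟨z, hz, hzα⟩ := h.root_lift hd' hf (hroot α)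
  obtain ⟨G, hG⟩ := dvd_iff_isRoot.2 hz
  have hGg : G.map ρ = g := by
    have h1 := hf
    rw [hG, Polynomial.map_mul, Polynomial.map_sub, map_X, map_C, hzα] at h1
    exact mul_left_cancel₀ (X_sub_C_ne_zero α) h1
  have hG0 : G ≠ 0 := by
    rintro rfl
    rw [Polynomial.map_zero] at hGg
    exact hg.ne_zero hGg.symm
  have hGd : G.natDegree = g.natDegree := by
    have h1 := congrArg natDegree hG
    rw [natDegree_mul (X_sub_C_ne_zero z) hG0, natDegree_X_sub_C, hd] at h1
    omega
  refine ⟨algebraMap O L z, G.map (algebraMap O L), ?_, ?_, ?_⟩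
  · apply h.irr_of_red
    · rw [hGg, hGd]
    · rw [hGg]; exact hg
  · rw [natDegree_map_eq_of_injective (IsFractionRing.injective O L), hGd]
  · rw [hG, Polynomial.map_mul, Polynomial.map_sub, map_X, map_C]

theorem Hens.sq_red (_ : Hens ρ) {x : O} (hx : IsSquare (algebraMap O L x)) :
    IsSquare (ρ x) := by
  obtain ⟨y, hy⟩ := hx
  have h1 : IsIntegral O y := by
    have h2 : IsIntegral O (y ^ 2) := by
      rw [pow_two, ← hy]
      exact isIntegral_algebraMap
    exact h2.of_pow two_pos
  obtain ⟨y', hy'⟩ := (IsIntegrallyClosed.isIntegral_iff (R := O) (K := L)).1 h1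
  have h2 : x = y' * y' := by
    apply IsFractionRing.injective O L
    rw [map_mul, hy', hy]
  exact ⟨ρ y', by rw [h2, map_mul]⟩

end hens

section place

variable {𝔽 : Type} [Field 𝔽] [Finite 𝔽]

/-- The field `k` has an embedding in a henselian field which induces the `π`-adic valuation on
`𝔽[u]` (up to a power), with the residue field `𝔽[u] / π`. -/
def HasPlace (k : Type) [Field k] [Algebra 𝔽[X] k] (π : 𝔽[X]) : Prop :=
  ∀ (E : Type) [Field E] [Finite E] (ρ : 𝔽[X] →+* E), Function.Surjective ρ →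
    RingHom.ker ρ = Ideal.span {π} → ∃ (O L : Type) (_ : CommRing O) (_ : IsDomain O) (_ : IsIntegrallyClosed O) (_ : Field L)
      (_ : Algebra O L) (_ : IsFractionRing O L) (ρ' : O →+* E) (ι : 𝔽[X] →+* O) (φ : k →+* L),
      Hens ρ' ∧ (∀ f, ρ' (ι f) = ρ f) ∧ ∀ f, φ (algebraMap 𝔽[X] k f) = algebraMap O L (ι f)

/-- The power series ring is henselian. -/
theorem hens_powerSeries (E : Type) [Field E] :
    Hens (PowerSeries.constantCoeff (R := E)) := by
  refine ⟨fun a => ⟨PowerSeries.C a, by simp⟩, fun x hx => ?_, fun f hf a h1 h2 => ?_⟩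
  · rw [PowerSeries.isUnit_iff_constantCoeff]
    exact isUnit_iff_ne_zero.2 hx
  · have h3 := HenselianRing.is_henselian (R := PowerSeries E) (I := Ideal.span {PowerSeries.X}) f
      hf a (by
        rw [Ideal.mem_span_singleton, PowerSeries.X_dvd_iff]
        exact h1) (by
        apply IsUnit.map
        rw [PowerSeries.isUnit_iff_constantCoeff]
        exact isUnit_iff_ne_zero.2 h2)
    obtain ⟨z, hz1, hz2⟩ := h3
    refine ⟨z, hz1, ?_⟩
    rw [Ideal.mem_span_singleton, PowerSeries.X_dvd_iff, map_sub] at hz2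
    exact sub_eq_zero.1 hz2

/-- The embedding of `𝔽[u]` in the power series in `u - ρ(u)`. -/
noncomputable def iota {E : Type} [Field E] (ρ : 𝔽[X] →+* E) : 𝔽[X] →+* PowerSeries E :=
  (Polynomial.coeToPowerSeries.ringHom).comp ((compRingHom (X + C (ρ X))).comp
    (mapRingHom (ρ.comp C)))

omit [Finite 𝔽] in
theorem iota_injective {E : Type} [Field E] (ρ : 𝔽[X] →+* E) : Function.Injective (iota ρ) := by
  have hj : Function.Injective (ρ.comp C) := (ρ.comp C).injective
  have hι₀ : Function.Injective ((compRingHom (X + C (ρ X))).comp (mapRingHom (ρ.comp C))) := by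
    have h1 : Function.Injective (compRingHom (X + C (ρ X)) : E[X] →+* E[X]) := by
      intro a b hab
      have h2 : a.comp (X + C (ρ X)) = b.comp (X + C (ρ X)) := hab
      have h3 := congrArg (fun g => g.comp (X - C (ρ X))) h2
      simp only [comp_assoc] at h3
      have h4 : (X + C (ρ X) : E[X]).comp (X - C (ρ X)) = X := by
        rw [add_comp, X_comp, C_comp, sub_add_cancel]
      rwa [h4, comp_X, comp_X] at h3
    exact h1.comp (map_injective _ hj)
  intro a b hab
  exact hι₀ (Polynomial.coe_injective E hab)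

omit [Finite 𝔽] in
theorem iota_coeff {E : Type} [Field E] (ρ : 𝔽[X] →+* E) (f : 𝔽[X]) :
    PowerSeries.constantCoeff (iota ρ f) = ρ f := by
  change PowerSeries.constantCoeff ((((f.map (ρ.comp C)).comp (X + C (ρ X)) : E[X]) :
    PowerSeries E)) = _
  rw [Polynomial.constantCoeff_coe, coeff_zero_eq_eval_zero, eval_comp, eval_add, eval_X, eval_C,
    zero_add, eval_map]
  have h5 := Polynomial.hom_eval₂ f C ρ X
  rw [eval₂_C_X] at h5
  exact h5.symm

/-- **The completions of `𝔽(u)`.** -/
theorem hasPlace_fraction (k : Type) [Field k] [Algebra 𝔽[X] k] [IsFractionRing 𝔽[X] k] (π : 𝔽[X]) :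
    HasPlace k π := by
  intro E _ _ ρ hρ _
  refine ⟨PowerSeries E, FractionRing (PowerSeries E), inferInstance, inferInstance, inferInstance,
    inferInstance, inferInstance, inferInstance, PowerSeries.constantCoeff, iota ρ,
    IsFractionRing.lift (A := 𝔽[X]) (K := k) (g := (algebraMap (PowerSeries E)
      (FractionRing (PowerSeries E))).comp (iota ρ))
      ((IsFractionRing.injective (PowerSeries E) (FractionRing (PowerSeries E))).comp
        (iota_injective ρ)), hens_powerSeries E, iota_coeff ρ, fun f => ?_⟩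
  exact IsFractionRing.lift_algebraMap _ _

end place

end Pool.Agent.Q126.FD
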