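import Pool.Agent.TH115.TC.TwMain
import Pool.Agent.Q126.TD.Comp

/-!
Inert twists after all pull-backs by composites of quadratic polynomials.
-/

set_option autoImplicit false
set_option linter.all false

open Polynomial Module Pool.Agent.TH115.GD IntermediateField

namespace Pool.Agent.Q126.FD

section deg

variable {k L : Type} [Field k] [Field L] [Algebra k L] [FiniteDimensional k L]

theorem step_dvd {a : k} (c : k) (ha : a ≠ 0) (τ : L) :
    (minpoly k τ).natDegree ∣
      2 * (minpoly k (algebraMap k L a * τ ^ 2 + algebraMap k L c)).natDegree := by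
  set τ' := algebraMap k L a * τ ^ 2 + algebraMap k L c with hτ'
  have i' : IsIntegral k τ' := Algebra.IsIntegral.isIntegral _
  have iτ : IsIntegral k⟮τ'⟯ τ := Algebra.IsIntegral.isIntegral _
  have h1 : finrank k k⟮τ'⟯ = (minpoly k τ').natDegree := adjoin.finrank i'
  have h2 : finrank k⟮τ'⟯ k⟮τ'⟯⟮τ⟯ = (minpoly k⟮τ'⟯ τ).natDegree := adjoin.finrank iτ
  have ha' : algebraMap k k⟮τ'⟯ a ≠ 0 := (_root_.map_ne_zero _).2 ha
  set P : k⟮τ'⟯[X] := C (algebraMap k k⟮τ'⟯ a) * X ^ 2 +
    C (algebraMap k k⟮τ'⟯ c - AdjoinSimple.gen k τ') with hP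
  have hPd : P.natDegree = 2 := by
    rw [hP, natDegree_add_C, natDegree_C_mul_X_pow 2 _ ha']
  have hP0 : P ≠ 0 := by
    intro h
    rw [h, natDegree_zero] at hPd
    omega
  have hPr : aeval τ P = 0 := by
    rw [hP]
    simp only [map_add, map_mul, map_pow, aeval_C, aeval_X, map_sub]
    rw [← IsScalarTower.algebraMap_apply, ← IsScalarTower.algebraMap_apply,
      AdjoinSimple.algebraMap_gen, hτ']
    ring
  have h3 : (minpoly k⟮τ'⟯ τ).natDegree ≤ 2 := by
    rw [← hPd]
    exact natDegree_le_of_dvd (minpoly.dvd _ _ hPr) hP0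
  have h4 : 0 < (minpoly k⟮τ'⟯ τ).natDegree := minpoly.natDegree_pos iτ
  haveI : IsScalarTower k k⟮τ'⟯⟮τ⟯ L := IsScalarTower.of_algebraMap_eq fun x => rfl
  haveI : FiniteDimensional k k⟮τ'⟯⟮τ⟯ := FiniteDimensional.trans k k⟮τ'⟯ k⟮τ'⟯⟮τ⟯
  have h5 : finrank k k⟮τ'⟯ * finrank k⟮τ'⟯ k⟮τ'⟯⟮τ⟯ = finrank k k⟮τ'⟯⟮τ⟯ :=
    finrank_mul_finrank _ _ _
  have h6 : (minpoly k τ).natDegree ∣ finrank k k⟮τ'⟯⟮τ⟯ := by
    have h7 : minpoly k (AdjoinSimple.gen k⟮τ'⟯ τ) = minpoly k τ := by
      have h8 := minpoly.algebraMap_eq (A := k) (algebraMap k⟮τ'⟯⟮τ⟯ L).injective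
        (AdjoinSimple.gen k⟮τ'⟯ τ)
      rw [← h8, AdjoinSimple.algebraMap_gen]
    rw [← h7]
    exact minpoly.degree_dvd (Algebra.IsIntegral.isIntegral _)
  rw [← h5, h1, h2] at h6
  refine h6.trans ?_
  rw [mul_comm]
  apply mul_dvd_mul_right
  have : (minpoly k⟮τ'⟯ τ).natDegree = 1 ∨ (minpoly k⟮τ'⟯ τ).natDegree = 2 := by omega
  rcases this with h | h <;> rw [h]
  exact one_dvd _

theorem list_dvd : ∀ l : List (k × k), (∀ p ∈ l, p.1 ≠ 0) → ∀ τ : L,
    (minpoly k τ).natDegree ∣ 2 ^ l.length * (minpoly k (aeval τ (cq l))).natDegree := by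
  intro l
  induction l with
  | nil =>
    intro _ τ
    have e : aeval τ (cq ([] : List (k × k))) = τ := aeval_X τ
    rw [e, List.length_nil, pow_zero, one_mul]
  | cons p l ih =>
    intro hl τ
    have hp : p.1 ≠ 0 := hl p List.mem_cons_self
    have e : aeval τ (cq (p :: l)) =
        aeval (algebraMap k L p.1 * τ ^ 2 + algebraMap k L p.2) (cq l) := by
      rw [cq_cons, aeval_comp]
      simp
    rw [e, List.length_cons, pow_succ]
    refine (step_dvd p.2 hp τ).trans ?_
    rw [mul_comm (2 ^ l.length), mul_assoc]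
    exact mul_dvd_mul_left 2 (ih (fun q hq => hl q (List.mem_cons_of_mem _ hq)) _)

end deg

section pull

variable {k : Type} [Field k]

theorem inert_pull {g D : k[X]} (hg3 : g.natDegree = 3) (h : Irreducible (D.comp (-g)))
    {l : List (k × k)} (hl : ∀ p ∈ l, p.1 ≠ 0) {π : k[X]} (hπ : Irreducible π)
    (hπD : π ∣ D.comp (cq l)) (u : k[X]) : ¬ π ∣ g.comp u + cq l := by
  intro hu
  obtain ⟨hD, -⟩ := Pool.Agent.Q126.TD.not_dvd_of_comp (f := D) (g := -g)
    (by rw [natDegree_neg, hg3]; norm_num) h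
  haveI : Fact (Irreducible π) := ⟨hπ⟩
  haveI : FiniteDimensional k (AdjoinRoot π) := (AdjoinRoot.powerBasis hπ.ne_zero).finite
  have hfin : finrank k (AdjoinRoot π) = π.natDegree := by
    rw [(AdjoinRoot.powerBasis hπ.ne_zero).finrank, AdjoinRoot.powerBasis_dim hπ.ne_zero]
  set τ := AdjoinRoot.root π with hτ
  set α := aeval τ (cq l) with hα
  have nat_of : ∀ (f : k[X]), Irreducible f → ∀ x : AdjoinRoot π, aeval x f = 0 →
      (minpoly k x).natDegree = f.natDegree := by
    intro f hf x hx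
    rw [← minpoly.eq_of_irreducible hf hx, natDegree_mul_C]
    exact inv_ne_zero (leadingCoeff_ne_zero.2 hf.ne_zero)
  have h1 : aeval α D = 0 := by
    have h2 : aeval τ (D.comp (cq l)) = 0 := by
      rw [hτ, AdjoinRoot.aeval_eq]
      exact AdjoinRoot.mk_eq_zero.2 hπD
    rwa [aeval_comp] at h2
  have h2 : aeval (aeval τ u) (-g) = α := by
    have h3 : aeval τ (g.comp u + cq l) = 0 := by
      rw [hτ, AdjoinRoot.aeval_eq]
      exact AdjoinRoot.mk_eq_zero.2 hu
    rw [map_add, aeval_comp] at h3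
    rw [map_neg, hα]
    linear_combination (-1 : AdjoinRoot π) * h3
  have h3 : aeval (aeval τ u) (D.comp (-g)) = 0 := by
    rw [aeval_comp, h2, h1]
  have n1 : (minpoly k α).natDegree = D.natDegree := nat_of D hD α h1
  have n2 : (minpoly k (aeval τ u)).natDegree = D.natDegree * 3 := by
    rw [nat_of _ h _ h3, natDegree_comp, natDegree_neg, hg3]
  have n3 : (minpoly k τ).natDegree = π.natDegree := nat_of π hπ τ (by
    rw [hτ, AdjoinRoot.aeval_eq, AdjoinRoot.mk_self])
  have d1 : (minpoly k (aeval τ u)).natDegree ∣ finrank k (AdjoinRoot π) :=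
    minpoly.degree_dvd (Algebra.IsIntegral.isIntegral _)
  have d2 := list_dvd l hl τ
  rw [n2, hfin, ← n3] at d1
  have d3 := d1.trans d2
  rw [← hα, n1, mul_comm D.natDegree] at d3
  have d4 : 3 ∣ 2 ^ l.length := Nat.dvd_of_mul_dvd_mul_right hD.natDegree_pos d3
  have d5 := (Nat.prime_three).dvd_of_dvd_pow d4
  omega

theorem sep_pull (h2 : (2 : k) ≠ 0) {D : k[X]} (hD : Irreducible D) (hs : D.Separable)
    (hm : 2 ≤ D.natDegree) {l : List (k × k)} (hl : ∀ p ∈ l, p.1 ≠ 0) :
    (D.comp (cq l)).Separable := by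
  rw [Polynomial.Separable, isCoprime_iff_aeval_ne_zero_of_isAlgClosed k (AlgebraicClosure k)]
  intro t
  by_contra hcon
  push Not at hcon
  obtain ⟨c1, c2⟩ := hcon
  rw [aeval_comp] at c1
  rw [derivative_comp, map_mul, aeval_comp] at c2
  have h3 := (isCoprime_iff_aeval_ne_zero_of_isAlgClosed k (AlgebraicClosure k) _ _).1 hs
    (aeval t (cq l))
  rcases mul_eq_zero.1 c2 with h4 | h4
  · have h2' : (2 : AlgebraicClosure k) ≠ 0 := by
      have := (_root_.map_ne_zero (algebraMap k (AlgebraicClosure k))).2 h2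
      rwa [map_ofNat] at this
    obtain ⟨γ, -, h5⟩ := crit_val h2' l hl t h4
    rw [h5, aeval_algebraMap_apply] at c1
    have h6 : D.eval γ = 0 := by
      apply (algebraMap k (AlgebraicClosure k)).injective
      rw [map_zero]
      exact c1
    exact Pool.Agent.Q126.TD.not_root_of_irr hD hm γ h6
  · rcases h3 with h5 | h5
    · exact h5 c1
    · exact h5 h4

end pull

end Pool.Agent.Q126.FD
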