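import Pool.Agent.Q126.FD.Emb

/-!
Finite separable extensions of rational function fields over `𝔽(u)` have infinitely many places of
degree one over `𝔽(u)`.
-/

set_option autoImplicit false
set_option linter.all false

open Polynomial

namespace Pool.Agent.Q126.FD

section sep

variable {𝔽 : Type} [Field 𝔽] [Finite 𝔽] {σ : Type} [Finite σ] {K₀ k : Type} [Field K₀]
  [Algebra (MvPolynomial σ 𝔽[X]) K₀] [IsFractionRing (MvPolynomial σ 𝔽[X]) K₀] [Field k]
  [Algebra K₀ k] [FiniteDimensional K₀ k] [Algebra.IsSeparable K₀ k]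

theorem countable_poly : Countable 𝔽[X] := by
  rw [← Cardinal.mk_le_aleph0_iff]
  refine Polynomial.cardinalMk_le_max.trans ?_
  rw [max_le_iff]
  exact ⟨Cardinal.mk_le_aleph0_iff.2 Finite.to_countable, le_rfl⟩

omit [Finite σ] [FiniteDimensional K₀ k] [Algebra.IsSeparable K₀ k] in
/-- A Bezout identity over the polynomial ring. -/
theorem bezout {f : K₀[X]} (hf : f.Separable) (hf0 : f ≠ 0) :
    ∃ (F A B : (MvPolynomial σ 𝔽[X])[X]) (b Δ : MvPolynomial σ 𝔽[X]), b ≠ 0 ∧ Δ ≠ 0 ∧
      F.map (algebraMap (MvPolynomial σ 𝔽[X]) K₀) =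
        C (algebraMap (MvPolynomial σ 𝔽[X]) K₀ b) * f ∧
      A * F + B * derivative F = C Δ := by
  classical
  set M := MvPolynomial σ 𝔽[X] with hM
  obtain ⟨a0, b0, hab⟩ := hf
  obtain ⟨b, hb⟩ := IsLocalization.integerNormalization_map_to_map (nonZeroDivisors M) f
  obtain ⟨c, hc⟩ := IsLocalization.integerNormalization_map_to_map (nonZeroDivisors M) a0
  obtain ⟨d, hd⟩ := IsLocalization.integerNormalization_map_to_map (nonZeroDivisors M) b0
  have smul_eq : ∀ (x : M) (g : K₀[X]), x • g = C (algebraMap M K₀ x) * g := by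
    intro x g
    rw [← smul_eq_C_mul, algebraMap_smul]
  set F := IsLocalization.integerNormalization (nonZeroDivisors M) f with hF
  set A := IsLocalization.integerNormalization (nonZeroDivisors M) a0 with hA
  set B := IsLocalization.integerNormalization (nonZeroDivisors M) b0 with hB
  rw [smul_eq] at hb hc hd
  have b0' : (b : M) ≠ 0 := nonZeroDivisors.coe_ne_zero b
  have c0' : (c : M) ≠ 0 := nonZeroDivisors.coe_ne_zero c
  have d0' : (d : M) ≠ 0 := nonZeroDivisors.coe_ne_zero d
  refine ⟨F, C (d : M) * A, C (c : M) * B, b, c * d * b, b0', mul_ne_zero (mul_ne_zero c0' d0') b0',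
    hb, ?_⟩
  apply Polynomial.map_injective _ (IsFractionRing.injective M K₀)
  simp only [Polynomial.map_add, Polynomial.map_mul, map_C, hb, hc, hd, ← derivative_map,
    derivative_mul, derivative_C, zero_mul, zero_add, map_mul]
  linear_combination (C (algebraMap M K₀ c) * C (algebraMap M K₀ d) * C (algebraMap M K₀ b)) * hab

/-- **Places of degree one.** -/
theorem places_sep [Algebra 𝔽[X] k] (halg : ∀ f : 𝔽[X], algebraMap 𝔽[X] k f =
      algebraMap K₀ k (algebraMap (MvPolynomial σ 𝔽[X]) K₀ (MvPolynomial.C f))) : Rich 𝔽 k := by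
  classical
  set M := MvPolynomial σ 𝔽[X] with hM
  intro D
  let pb := Field.powerBasisOfFiniteOfSeparable K₀ k
  set f := minpoly K₀ pb.gen with hf
  have hfs : f.Separable := Algebra.IsSeparable.isSeparable K₀ pb.gen
  have hfm : f.Monic := minpoly.monic pb.isIntegral_gen
  have hfd : 0 < f.natDegree := minpoly.natDegree_pos pb.isIntegral_gen
  obtain ⟨F, A, B, b, Δ, hb, hΔ, hFf, hAB⟩ := bezout (𝔽 := 𝔽) (σ := σ) hfs hfm.ne_zero
  have hinjM : Function.Injective (algebraMap M K₀) := IsFractionRing.injective M K₀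
  have hbK : algebraMap M K₀ b ≠ 0 := fun h => hb (hinjM (by rw [h, map_zero]))
  have hFd : F.natDegree = f.natDegree := by
    rw [← natDegree_map_eq_of_injective hinjM, hFf, natDegree_C_mul hbK]
  have hF0 : F ≠ 0 := by
    intro h
    rw [h, natDegree_zero] at hFd
    omega
  have hlc : F.leadingCoeff ≠ 0 := leadingCoeff_ne_zero.2 hF0
  -- a specialization
  obtain ⟨a, ha⟩ : ∃ a : σ → 𝔽[X], MvPolynomial.eval a (F.leadingCoeff * Δ) ≠ 0 := by
    by_contra hcon
    push Not at hcon
    exact mul_ne_zero hlc hΔ (MvPolynomial.funext fun x => by rw [hcon x, map_zero])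
  set Fa : 𝔽[X][X] := F.map (MvPolynomial.eval a) with hFa
  have hlca : MvPolynomial.eval a F.leadingCoeff ≠ 0 := fun h => ha (by rw [map_mul, h, zero_mul])
  have hFad : Fa.natDegree = f.natDegree := by
    rw [hFa, natDegree_map_of_leadingCoeff_ne_zero _ hlca, hFd]
  have hsch := schur (F := Fa) (by rw [hFad]; exact hfd) ha
  have hsmall : {π : 𝔽[X] | π.natDegree < D}.Finite := by
    apply (lt_finite (𝔽 := 𝔽) D).subset
    intro π hπ
    rw [SetLike.mem_coe, mem_degreeLT]
    refine degree_le_natDegree.trans_lt ?_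
    exact_mod_cast hπ
  refine (hsch.sdiff hsmall).mono ?_
  rintro π ⟨⟨hm, hi, hnd, y, hy⟩, hD⟩
  refine ⟨hm, hi, not_lt.1 hD, ?_⟩
  intro E _ _ ρ hρ hker
  have hρ0 : ∀ g : 𝔽[X], ρ g = 0 ↔ π ∣ g := by
    intro g
    rw [← RingHom.mem_ker, hker, Ideal.mem_span_singleton]
  letI : Algebra 𝔽[X] (PowerSeries E) := (iota ρ).toAlgebra
  haveI : Countable 𝔽[X] := countable_poly
  obtain ⟨ξ, hξ1, hξ2⟩ := exists_indep (E := E) 𝔽[X] (iota_injective ρ) σ (fun i => ρ (a i))
  let ε : M →+* PowerSeries E := (MvPolynomial.aeval (R := 𝔽[X]) ξ).toRingHom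
  have hεinj : Function.Injective ε := hξ2
  have hεC : ∀ g : 𝔽[X], ε (MvPolynomial.C g) = iota ρ g := by
    intro g
    change MvPolynomial.aeval (R := 𝔽[X]) ξ (MvPolynomial.C g) = _
    rw [MvPolynomial.aeval_C]
    rfl
  have hred : (PowerSeries.constantCoeff (R := E)).comp ε = ρ.comp (MvPolynomial.eval a) := by
    apply MvPolynomial.ringHom_ext
    · intro g
      change PowerSeries.constantCoeff (ε (MvPolynomial.C g)) = ρ (MvPolynomial.eval a _)
      rw [hεC, iota_coeff, MvPolynomial.eval_C]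
    · intro i
      change PowerSeries.constantCoeff (MvPolynomial.aeval (R := 𝔽[X]) ξ (MvPolynomial.X i)) =
        ρ (MvPolynomial.eval a _)
      rw [MvPolynomial.aeval_X, MvPolynomial.eval_X, hξ1]
  have hmap : (F.map ε).map (PowerSeries.constantCoeff (R := E)) = Fa.map ρ := by
    rw [Polynomial.map_map, hred, hFa, Polynomial.map_map]
  have hlcρ : ρ Fa.leadingCoeff ≠ 0 := by
    intro h0
    have h1 : Fa.leadingCoeff = MvPolynomial.eval a F.leadingCoeff := by
      rw [leadingCoeff, hFad, ← hFd, hFa, coeff_map]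
      rfl
    rw [h1, hρ0] at h0
    exact hnd (by rw [map_mul]; exact h0.mul_right _)
  have hdE : (Fa.map ρ).natDegree = f.natDegree := by
    rw [natDegree_map_of_leadingCoeff_ne_zero _ hlcρ, hFad]
  have hdO : (F.map ε).natDegree = f.natDegree := by
    rw [natDegree_map_eq_of_injective hεinj, hFd]
  -- the simple root
  have hroot : (Fa.map ρ).IsRoot (ρ y) := by
    rw [IsRoot, Polynomial.eval_map_apply, hρ0]
    exact hy
  obtain ⟨g, hg⟩ := dvd_iff_isRoot.2 hroot
  have hAB2 : (((A.map (MvPolynomial.eval a)).map ρ) * (Fa.map ρ) +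
      ((B.map (MvPolynomial.eval a)).map ρ) * derivative (Fa.map ρ)) =
        C (ρ (MvPolynomial.eval a Δ)) := by
    have h1 := congrArg (fun q => (q.map (MvPolynomial.eval a)).map ρ) hAB
    simp only [Polynomial.map_add, Polynomial.map_mul, map_C, ← derivative_map] at h1
    exact h1
  have hder : eval (ρ y) (derivative (Fa.map ρ)) ≠ 0 := by
    intro h0
    have h1 := congrArg (eval (ρ y)) hAB2
    rw [eval_add, eval_mul, eval_mul, h0, hroot.eq_zero, mul_zero, mul_zero, add_zero, eval_C] at h1
    have h2 := (hρ0 _).1 h1.symm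
    exact hnd (by rw [map_mul]; exact h2.mul_left _)
  have hgne : eval (ρ y) g ≠ 0 := by
    rw [hg, derivative_mul, derivative_sub, derivative_X, derivative_C, sub_zero, one_mul, eval_add,
      eval_mul, eval_sub, eval_X, eval_C, sub_self, zero_mul, add_zero] at hder
    exact hder
  obtain ⟨z, hz, -⟩ := (hens_powerSeries E).root_lift (f := F.map ε) (by rw [hmap, hdE, hdO])
    (hmap.trans hg) hgne
  -- the embedding
  let O := PowerSeries E
  let L := FractionRing O
  have hOL : Function.Injective (algebraMap O L) := IsFractionRing.injective O L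
  have hεL : Function.Injective ((algebraMap O L).comp ε) := hOL.comp hεinj
  let ψ : K₀ →+* L := IsFractionRing.lift (A := M) (K := K₀) (g := (algebraMap O L).comp ε) hεL
  have hψ : ∀ x : M, ψ (algebraMap M K₀ x) = algebraMap O L (ε x) :=
    fun x => IsFractionRing.lift_algebraMap hεL x
  have hroot2 : eval (algebraMap O L z) (f.map ψ) = 0 := by
    have h1 : (F.map ε).map (algebraMap O L) = C (ψ (algebraMap M K₀ b)) * f.map ψ := by
      have h2 := congrArg (Polynomial.map ψ) hFf
      rw [Polynomial.map_mul, map_C, Polynomial.map_map] at h2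
      rw [← h2, Polynomial.map_map]
      congr 1
      exact RingHom.ext fun x => (hψ x).symm
    have h3 : eval (algebraMap O L z) ((F.map ε).map (algebraMap O L)) = 0 := by
      rw [Polynomial.eval_map_apply, hz, map_zero]
    rw [h1, eval_mul, eval_C] at h3
    rcases mul_eq_zero.1 h3 with h4 | h4
    · exact absurd ((_root_.map_eq_zero ψ).1 h4) hbK
    · exact h4
  letI : Algebra K₀ L := ψ.toAlgebra
  let φ : k →ₐ[K₀] L := pb.lift (algebraMap O L z) (by
    rw [aeval_def, eval₂_eq_eval_map]
    exact hroot2)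
  refine ⟨O, L, inferInstance, inferInstance, inferInstance, inferInstance, inferInstance,
    inferInstance, PowerSeries.constantCoeff, iota ρ, φ.toRingHom, hens_powerSeries E,
    iota_coeff ρ, fun g => ?_⟩
  rw [halg]
  change φ (algebraMap K₀ k _) = _
  rw [φ.commutes]
  change ψ _ = _
  rw [hψ, hεC]

end sep

end Pool.Agent.Q126.FD
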