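import Pool.Agent.Q126.FD.Pairs
import Pool.Agent.TH115.SD.Fam2
import Pool.Agent.TH115.ID.Gener

/-!
The Tate conjecture at 2 for almost all elliptic surfaces with a section of order two over fields with
many places over `𝔽(u)`.
-/

set_option autoImplicit false
set_option linter.all false

open Polynomial Filter Topology Pool.Agent.TH115.GD

namespace Pool.Agent.Q126.FD

open Pool.Agent.Q126.TD (pol pol_coeff pol_injective natDegree_pol_le coeff_pol map_pol)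

section

variable {𝔽 : Type} [Field 𝔽] [Finite 𝔽] {k k' K F : Type} [Field k] [Algebra 𝔽[X] k] [Field k']
  [Algebra k k'] [Field K] [Algebra k[X] K] [Field F] [Algebra k'[X] F] [IsFractionRing k'[X] F]
  [Algebra K F]

theorem two_ne (k : Type) [Field k] [Algebra 𝔽[X] k] (h2 : (2 : 𝔽) ≠ 0) : (2 : k) ≠ 0 := by
  have e : (2 : k) = ((algebraMap 𝔽[X] k).comp C) 2 := (map_ofNat _ 2).symm
  rw [e]
  exact (_root_.map_ne_zero _).2 h2

theorem notNorm_C_mul {c : k} (hc : c ≠ 0) {f : k[X]} (h : NotNorm f) :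
    NotNorm (C c * f) := by
  intro u D U V e
  refine h (c⁻¹ * u) D U V ?_
  rw [C_mul, mul_assoc, ← e, ← mul_assoc, ← C_mul, inv_mul_cancel₀ hc, C_1, one_mul]

omit [Finite 𝔽] [Algebra 𝔽[X] k] in
theorem good_one (hT : IsTower k k' K F) (k2 : (2 : k) ≠ 0) {a b : k[X]} (hb : Irreducible b)
    (sb : b.Separable) (hΔ : Irreducible (a ^ 2 - 4 * b)) (sΔ : (a ^ 2 - 4 * b).Separable)
    (nb : NotNorm b) (nΔ : NotNorm (a ^ 2 - 4 * b)) {d : k} (hd : d ≠ 0) :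
    TateAtTwo (F := F) k'
      (crvT (algebraMap k[X] K (C d * a)) (algebraMap k[X] K (C (d ^ 2) * b))) := by
  have hd2 : d ^ 2 ≠ 0 := pow_ne_zero 2 hd
  have e : (C d * a) ^ 2 - 4 * (C (d ^ 2) * b) = C (d ^ 2) * (a ^ 2 - 4 * b) := by
    rw [C_pow]; ring
  refine genericT hT k2 (π := b) (ρ := a ^ 2 - 4 * b) (u := d ^ 2) (v := d ^ 2)
    (m := 0) (n := 0) hd2 hd2 hb hΔ sb sΔ ?_ ?_ (notNorm_C_mul hd2 nb) ?_
  · rw [mul_zero, zero_add, pow_one]
  · rw [mul_zero, zero_add, pow_one, e]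
  · rw [e]
    exact notNorm_C_mul hd2 nΔ

/-- **Sections of order two.** -/
theorem core_one (hk : Rich 𝔽 k) (h2 : (2 : 𝔽) ≠ 0) {n m : ℕ} (hm : 3 ≤ m) (hnm : 2 * n ≤ m)
    (hT : IsTower k k' K F) {S : Set (𝔽[X][X] × 𝔽[X][X])}
    (hS : ∀ x : 𝔽[X][X] × 𝔽[X][X], (∀ d : k, d ≠ 0 → TateAtTwo (F := F) k'
      (crvT (algebraMap k[X] K (C d * x.1.map (algebraMap 𝔽[X] k)))
        (algebraMap k[X] K (C (d ^ 2) * x.2.map (algebraMap 𝔽[X] k))))) → x ∈ S) :
    Tendsto (fun D : ℕ => ((pairs 𝔽 n m D ∩ S).ncard : ℝ) / (pairs 𝔽 n m D).ncard)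
      atTop (𝓝 1) := by
  obtain ⟨m', rfl⟩ : ∃ m', m = m' + 1 := ⟨m - 1, by omega⟩
  have hm' : 2 ≤ m' := by omega
  have k2 := two_ne (𝔽 := 𝔽) k h2
  apply tendsto_pairs
  have h1 := irr_full (𝔽 := 𝔽) hk (m := m' + 1) (by omega) (equi_inr (n := n))
  have h3 := notNorm_full (𝔽 := 𝔽) hk hm' (equi_inr (n := n))
  have h4 := irr_full (𝔽 := 𝔽) hk (m := m' + 1) (by omega) (equi_disc h2 hnm)
  have h5 := notNorm_full (𝔽 := 𝔽) hk hm' (equi_disc h2 hnm)
  refine (((h1.inter h3).inter h4).inter h5).mono ?_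
  rintro v ⟨⟨⟨⟨v1, s1, -⟩, v2⟩, v3, s3, -⟩, v4⟩
  have e : ((pol fun i => v (Sum.inl i)) ^ 2 - 4 * pol fun i => v (Sum.inr i)).map
      (algebraMap 𝔽[X] k) = ((pol fun i => v (Sum.inl i)).map (algebraMap 𝔽[X] k)) ^ 2 -
        4 * (pol fun i => v (Sum.inr i)).map (algebraMap 𝔽[X] k) := by
    rw [Polynomial.map_sub, Polynomial.map_mul, Polynomial.map_pow, Polynomial.map_ofNat]
  change NotNorm ((_ : 𝔽[X][X]).map (algebraMap 𝔽[X] k)) at v4
  rw [e] at v3 s3 v4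
  exact hS _ fun d hd => good_one hT k2 v1 s1 v3 s3 v2 v4 hd

theorem not_survives {a b : k[X]} (hb : b ≠ 0) (hab : a - b ≠ 0)
    (h : ∀ c : k, c ≠ 0 → ¬ SqMod a (C c * b)) {d : k} (hd : d ≠ 0) :
    ¬ Survives (C d * a) (C d * b) := by
  rintro ⟨⟨z, hz⟩, -, -⟩
  have hsub : C d * a - C d * b = C d * (a - b) := by ring
  rw [hsub, leadingCoeff_mul, leadingCoeff_mul, leadingCoeff_C] at hz
  refine h (d * b.leadingCoeff * (d * (a - b).leadingCoeff) * d) ?_ ⟨z, ?_⟩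
  · exact mul_ne_zero (mul_ne_zero (mul_ne_zero hd (leadingCoeff_ne_zero.2 hb))
      (mul_ne_zero hd (leadingCoeff_ne_zero.2 hab))) hd
  · refine (dvd_mul_left a (C d)).trans ?_
    have e : C (d * b.leadingCoeff * (d * (a - b).leadingCoeff) * d) * b =
        C (d * b.leadingCoeff * (d * (a - b).leadingCoeff)) * (C d * b) := by
      rw [C_mul]; ring
    rw [e]
    exact hz

omit [Finite 𝔽] [Algebra 𝔽[X] k] in
theorem good_two (hT : IsTower k k' K F) (k2 : (2 : k) ≠ 0) {N : ℕ} (hN : Odd N) {a b : k[X]}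
    (ha : Irreducible a) (hb : Irreducible b) (hc : Irreducible (a - b)) (sa : a.Separable)
    (sb : b.Separable) (sc : (a - b).Separable) (dA : a.natDegree = N) (dB : b.natDegree = N)
    (dC : (a - b).natDegree = N) (h : ∀ c : k, c ≠ 0 → ¬ SqMod a (C c * b)) {d : k} (hd : d ≠ 0) :
    TateAtTwo (F := F) k' (crv (algebraMap k[X] K (C d * a)) (algebraMap k[X] K (C d * b))) ∧
    GeneratedBy (F := F) k' (crv (algebraMap k[X] K (C d * a)) (algebraMap k[X] K (C d * b))) 0 := by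
  have hu : IsUnit (C d : k[X]) := isUnit_C.2 (isUnit_iff_ne_zero.2 hd)
  have irr : ∀ {p : k[X]}, Irreducible p → Irreducible (C d * p) := fun hp =>
    (irreducible_isUnit_mul hu).2 hp
  have sep : ∀ {p : k[X]}, Irreducible p → p.Separable → (C d * p).Separable := by
    intro p hp hs
    rw [separable_iff_derivative_ne_zero (irr hp)]
    have h1 := (separable_iff_derivative_ne_zero hp).1 hs
    rw [derivative_C_mul]
    exact mul_ne_zero (C_ne_zero.2 hd) h1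
  have hsub : C d * a - C d * b = C d * (a - b) := by ring
  have hco : IsCoprime a b := by
    rw [ha.coprime_iff_not_dvd]
    intro hdv
    apply h 1 one_ne_zero
    exact ⟨0, by
      rw [C_1, one_mul, zero_pow two_ne_zero, zero_sub, dvd_neg]
      exact hdv⟩
  have hco' : IsCoprime (C d * a) (C d * b) := (isCoprime_mul_unit_left hu a b).2 hco
  exact generic (F := F) hT k2 (irr ha) (irr hb) (by rw [hsub]; exact irr hc)
    (sep ha sa) (sep hb sb) (by rw [hsub]; exact sep hc sc) hco' hN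
    (by rw [natDegree_C_mul hd, dA]) (by rw [natDegree_C_mul hd, dB])
    (by rw [hsub, natDegree_C_mul hd, dC]) (not_survives hb.ne_zero hc.ne_zero h hd)

/-- **All the 2-torsion rational.** -/
theorem core_two (hk : Rich 𝔽 k) (h2 : (2 : 𝔽) ≠ 0) {N : ℕ} (hN : 5 ≤ N) (hodd : Odd N)
    (hT : IsTower k k' K F) {S : Set (𝔽[X][X] × 𝔽[X][X])}
    (hS : ∀ x : 𝔽[X][X] × 𝔽[X][X], (∀ d : k, d ≠ 0 →
      TateAtTwo (F := F) k' (crv (algebraMap k[X] K (C d * x.1.map (algebraMap 𝔽[X] k)))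
        (algebraMap k[X] K (C d * x.2.map (algebraMap 𝔽[X] k)))) ∧
      GeneratedBy (F := F) k' (crv (algebraMap k[X] K (C d * x.1.map (algebraMap 𝔽[X] k)))
        (algebraMap k[X] K (C d * x.2.map (algebraMap 𝔽[X] k)))) 0) → x ∈ S) :
    Tendsto (fun D : ℕ => ((pairs 𝔽 N N D ∩ S).ncard : ℝ) / (pairs 𝔽 N N D).ncard)
      atTop (𝓝 1) := by
  obtain ⟨N', rfl⟩ : ∃ N', N = N' + 2 := ⟨N - 2, by omega⟩
  have k2 := two_ne (𝔽 := 𝔽) k h2
  apply tendsto_pairs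
  have h1 := irr_full (𝔽 := 𝔽) hk (m := N' + 2) (by omega) (equi_inl (m := N' + 2))
  have h3 := irr_full (𝔽 := 𝔽) hk (m := N' + 2) (by omega) (equi_inr (n := N' + 2))
  have h4 := irr_full (𝔽 := 𝔽) hk (m := N' + 2) (by omega) equi_sub
  have h5 := sq_full (𝔽 := 𝔽) hk h2 (N := N') (by omega)
  refine (((h1.inter h3).inter h4).inter h5).mono ?_
  rintro v ⟨⟨⟨⟨v1, s1, d1⟩, v2, s2, d2⟩, v3, s3, d3⟩, v4⟩
  rw [Polynomial.map_sub] at v3 s3 d3
  exact hS _ fun d hd => good_two hT k2 hodd v1 v2 v3 s1 s2 s3 d1 d2 d3 v4 hd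

end

end Pool.Agent.Q126.FD
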