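import Pool.Agent.Q126.FD.Comp
import Pool.Agent.Q126.FD.Cop
import Pool.Agent.Q126.FD.Pull
import Pool.Agent.Q126.FD.Pairs

/-!
The Tate conjecture at 2 for all the pull-backs, by composites of quadratic polynomials, of inert
twists, over all the extensions of degree prime to three times the degree of the twist.
-/

set_option autoImplicit false
set_option linter.all false

open Polynomial Filter Topology Module Pool.Agent.TH115.GD

namespace Pool.Agent.Q126.FD

open Pool.Agent.Q126.TD (pol pol_coeff pol_injective natDegree_pol_le coeff_pol map_pol)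

/-- **One field.** -/
theorem tate_pull {k k' K F : Type} [Field k] [Field k'] [Algebra k k'] [Field K]
    [Algebra k[X] K] [Field F] [Algebra k'[X] F] [IsFractionRing k'[X] F] [Algebra K F]
    (hT : IsTower k k' K F) (h2 : (2 : k) ≠ 0) (h3 : (3 : k) ≠ 0) {b₂ b₁ b₀ : k} {D : k[X]}
    (h : Irreducible (D.comp (-(cb b₂ b₁ b₀)))) (hs : D.Separable) (hm : 2 ≤ D.natDegree)
    {d : k} (hd : d ≠ 0) {l : List (k × k)} (hl : ∀ p ∈ l, p.1 ≠ 0)
    (hcrit : ∀ γ ∈ crit l, Irreducible (cb b₂ b₁ b₀ + C γ) ∧ (cb b₂ b₁ b₀ + C γ).Separable) :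
    TateAtTwo (F := F) k' (twC K b₂ b₁ b₀ (cq l) (C d * D.comp (cq l))) := by
  have hg3 : (cb b₂ b₁ b₀).natDegree = 3 := (cb_deg _ _ _).1
  obtain ⟨hD, -⟩ := Pool.Agent.Q126.TD.not_dvd_of_comp (f := D) (g := -(cb b₂ b₁ b₀))
    (by rw [natDegree_neg, hg3]; norm_num) h
  have hder : derivative (cb b₂ b₁ b₀) ≠ 0 := by
    intro h0
    have h1 := congrArg (fun p : k[X] => p.coeff 2) h0
    rw [cb_der] at h1
    simp [coeff_X, coeff_C] at h1
    exact h3 h1
  have hu : IsUnit (C d : k[X]) := isUnit_C.2 (isUnit_iff_ne_zero.2 hd)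
  have hsep := sep_pull h2 hD hs hm hl
  refine tw_tate hT h2 hder hl hcrit (D := C d * D.comp (cq l)) ?_ ?_
  · exact (associated_unit_mul_left _ _ hu).squarefree_iff.2 hsep.squarefree
  · intro π hπ hπD u
    exact inert_pull hg3 h hl hπ ((hu.dvd_mul_left).1 hπD) u

end Pool.Agent.Q126.FD
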